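import Mathlib

/-!
# The complete 3-graph on `3 s + 2` vertices
-/

set_option autoImplicit false

namespace Pool.Agent.H67.RS

open Finset

/-- a set with at least `3 s` elements contains `s` disjoint triples -/
theorem triples {V : Type} [DecidableEq V] (s : ℕ) (S : Finset V) (hS : 3 * s ≤ S.card) :
    ∃ M : Finset (Finset V), (∀ e ∈ M, e ⊆ S ∧ e.card = 3) ∧
      (∀ e ∈ M, ∀ f ∈ M, e ≠ f → Disjoint e f) ∧ M.card = s := by
  induction s generalizing S with
  | zero => exact ⟨∅, by simp, by simp, rfl⟩
  | succ s ih =>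
    obtain ⟨e, heS, he3⟩ := exists_subset_card_eq (show 3 ≤ S.card by omega)
    have hc : 3 * s ≤ (S \ e).card := by
      rw [card_sdiff_of_subset heS]
      omega
    obtain ⟨M, h1, h2, h3⟩ := ih (S \ e) hc
    have hdis : ∀ f ∈ M, Disjoint e f := fun f hf =>
      disjoint_of_subset_right (h1 f hf).1 disjoint_sdiff
    have hne : e ∉ M := by
      intro h
      have := hdis e h
      rw [disjoint_self, bot_eq_empty] at this
      rw [this] at he3
      simp at he3
    refine ⟨insert e M, ?_, ?_, ?_⟩
    · intro f hf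
      rcases mem_insert.mp hf with rfl | hf
      · exact ⟨heS, he3⟩
      · exact ⟨(h1 f hf).1.trans sdiff_subset, (h1 f hf).2⟩
    · intro f hf g hg hfg
      rcases mem_insert.mp hf with hf' | hf'
      · rcases mem_insert.mp hg with hg' | hg'
        · exact absurd (hf'.trans hg'.symm) hfg
        · rw [hf']
          exact hdis g hg'
      · rcases mem_insert.mp hg with hg' | hg'
        · rw [hg']
          exact (hdis f hf').symm
        · exact h2 f hf' g hg' hfg
    · rw [card_insert_of_notMem hne, h3]

/-- a matching of triples on `3 s + 2` vertices has at most `s` edges -/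
theorem triples_le (s : ℕ) (M : Finset (Finset (Fin (3 * s + 2)))) (h3 : ∀ e ∈ M, e.card = 3)
    (hd : ∀ e ∈ M, ∀ f ∈ M, e ≠ f → Disjoint e f) : M.card ≤ s := by
  have h1 : (M.biUnion id).card = ∑ e ∈ M, (id e : Finset (Fin (3 * s + 2))).card :=
    card_biUnion (fun a ha b hb hab => hd a ha b hb hab)
  have h2 : ∑ e ∈ M, (id e : Finset (Fin (3 * s + 2))).card = M.card * 3 := by
    have h5 : ∀ e ∈ M, (id e : Finset (Fin (3 * s + 2))).card = 3 := fun e he => h3 e he
    rw [sum_congr rfl h5, sum_const, smul_eq_mul]
  have h4 : (M.biUnion id).card ≤ 3 * s + 2 := by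
    have := card_le_univ (M.biUnion id)
    simpa using this
  omega

end Pool.Agent.H67.RS
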