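import Mathlib

/-!
# A smooth linear programming duality

For a family `F` of finite sets and a vertex set `U` we minimise a smooth penalty function and obtain
weights `w` on `U` and dual weights `A * (1 - w(e))⁺` on the edges.
-/

set_option autoImplicit false
set_option linter.unusedSectionVars false

namespace Pool.Agent.H67.RS

open Finset

section
variable {V : Type} [Fintype V] [DecidableEq V]

/-- positive part of the deficit -/
noncomputable def df (w : V → ℝ) (e : Finset V) : ℝ := max (1 - ∑ v ∈ e, w v) 0

theorem df_nonneg (w : V → ℝ) (e : Finset V) : 0 ≤ df w e := le_max_right _ _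

/-- the penalty function -/
noncomputable def Ph (F : Finset (Finset V)) (A : ℝ) (w : V → ℝ) : ℝ :=
  ∑ v, w v + A / 2 * ∑ e ∈ F, (df w e) ^ 2

theorem continuous_df (e : Finset V) : Continuous (fun w : V → ℝ => df w e) := by
  unfold df
  exact (continuous_const.sub (continuous_finsetSum _ fun v _ => continuous_apply v)).max
    continuous_const

theorem continuous_Ph (F : Finset (Finset V)) (A : ℝ) : Continuous (Ph F A) := by
  unfold Ph
  refine Continuous.add (continuous_finsetSum _ fun v _ => continuous_apply v) ?_
  refine continuous_const.mul (continuous_finsetSum _ fun e _ => ?_)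
  exact (continuous_df e).pow 2

theorem sum_update (w : V → ℝ) (v : V) (t : ℝ) (e : Finset V) :
    ∑ u ∈ e, Function.update w v (w v + t) u = ∑ u ∈ e, w u + if v ∈ e then t else 0 := by
  by_cases hv : v ∈ e
  · rw [if_pos hv, ← add_sum_erase e _ hv, ← add_sum_erase e w hv]
    have : ∑ u ∈ e.erase v, Function.update w v (w v + t) u = ∑ u ∈ e.erase v, w u :=
      sum_congr rfl fun u hu => Function.update_of_ne (ne_of_mem_erase hu) _ _
    rw [this, Function.update_self]
    ring
  · rw [if_neg hv, add_zero]
    refine sum_congr rfl fun u hu => Function.update_of_ne ?_ _ _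
    rintro rfl
    exact hv hu

/-- change of the penalty function -/
theorem Ph_update (F : Finset (Finset V)) (A : ℝ) (hA : 0 ≤ A) (w : V → ℝ) (v : V) (t : ℝ) :
    Ph F A (Function.update w v (w v + t)) ≤ Ph F A w + t -
      t * (A * ∑ e ∈ F.filter (fun e => v ∈ e), df w e) +
      A / 2 * (F.filter (fun e => v ∈ e)).card * t ^ 2 := by
  unfold Ph
  have h1 : ∑ u, Function.update w v (w v + t) u = ∑ u, w u + t := by
    rw [sum_update, if_pos (mem_univ v)]
  have h2 : ∑ e ∈ F, (df (Function.update w v (w v + t)) e) ^ 2 ≤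
      ∑ e ∈ F, ((df w e) ^ 2 + if v ∈ e then (t ^ 2 - 2 * t * df w e) else 0) := by
    refine sum_le_sum fun e _ => ?_
    by_cases hv : v ∈ e
    · rw [if_pos hv]
      have h3 : df (Function.update w v (w v + t)) e = max ((1 - ∑ u ∈ e, w u) - t) 0 := by
        unfold df
        rw [sum_update, if_pos hv]
        congr 1
        ring
      rw [h3]
      unfold df
      set x : ℝ := 1 - ∑ u ∈ e, w u
      rcases le_total x 0 with hx | hx
      · rw [max_eq_right hx]
        rcases le_total (x - t) 0 with h | h
        · rw [max_eq_right h]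
          nlinarith [sq_nonneg t]
        · rw [max_eq_left h]
          nlinarith
      · rw [max_eq_left hx]
        rcases le_total (x - t) 0 with h | h
        · rw [max_eq_right h]
          nlinarith [sq_nonneg (x - t)]
        · rw [max_eq_left h]
          nlinarith
    · rw [if_neg hv, add_zero]
      have h3 : df (Function.update w v (w v + t)) e = df w e := by
        unfold df
        rw [sum_update, if_neg hv, add_zero]
      rw [h3]
  have h4 : ∑ e ∈ F, ((df w e) ^ 2 + if v ∈ e then (t ^ 2 - 2 * t * df w e) else 0) =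
      ∑ e ∈ F, (df w e) ^ 2 + ((F.filter (fun e => v ∈ e)).card * t ^ 2 -
        2 * t * ∑ e ∈ F.filter (fun e => v ∈ e), df w e) := by
    rw [sum_add_distrib, ← sum_filter, sum_sub_distrib, sum_const, nsmul_eq_mul, mul_sum]
  rw [h1]
  have h5 : A / 2 * ∑ e ∈ F, (df (Function.update w v (w v + t)) e) ^ 2 ≤
      A / 2 * (∑ e ∈ F, (df w e) ^ 2 + ((F.filter (fun e => v ∈ e)).card * t ^ 2 -
        2 * t * ∑ e ∈ F.filter (fun e => v ∈ e), df w e)) := by
    apply mul_le_mul_of_nonneg_left _ (by linarith)
    rw [← h4]
    exact h2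
  nlinarith [h5]

theorem sum_load (F : Finset (Finset V)) (w : V → ℝ) (y : Finset V → ℝ) :
    ∑ v, w v * ∑ e ∈ F.filter (fun e => v ∈ e), y e = ∑ e ∈ F, y e * ∑ v ∈ e, w v := by
  have h1 : ∀ v, w v * ∑ e ∈ F.filter (fun e => v ∈ e), y e =
      ∑ e ∈ F, if v ∈ e then y e * w v else 0 := by
    intro v
    rw [mul_sum, sum_filter]
    refine sum_congr rfl fun e _ => ?_
    split_ifs <;> ring
  have h2 : ∀ e ∈ F, y e * ∑ v ∈ e, w v = ∑ v, if v ∈ e then y e * w v else 0 := by
    intro e _
    rw [mul_sum, ← sum_filter]
    congr 1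
    ext v
    simp
  rw [sum_congr rfl (fun v _ => h1 v), sum_congr rfl h2]
  exact sum_comm

/-- the weights -/
theorem opt (F : Finset (Finset V)) (U : Finset V) (A : ℝ) (hA : 0 < A) :
    ∃ w : V → ℝ, (∀ v, 0 ≤ w v ∧ w v ≤ 1) ∧ (∀ v, v ∉ U → w v = 0) ∧
      (∀ v ∈ U, ∑ e ∈ F.filter (fun e => v ∈ e), A * df w e ≤ 1) ∧
      ∑ v, w v ≤ ∑ e ∈ F, A * df w e := by
  classical
  set K : Set (V → ℝ) := Set.pi Set.univ (fun v => if v ∈ U then Set.Icc (0 : ℝ) 1 else {0}) with hK
  have hKc : IsCompact K := by
    apply isCompact_univ_pi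
    intro v
    split_ifs
    · exact isCompact_Icc
    · exact isCompact_singleton
  have hKn : K.Nonempty := by
    refine ⟨fun _ => 0, ?_⟩
    rw [hK, Set.mem_univ_pi]
    intro v
    split_ifs <;> simp
  obtain ⟨w, hwK, hmin⟩ := hKc.exists_isMinOn hKn (continuous_Ph F A).continuousOn
  have hw0 : ∀ v, 0 ≤ w v ∧ w v ≤ 1 := by
    intro v
    rw [hK, Set.mem_univ_pi] at hwK
    have := hwK v
    split_ifs at this
    · exact this
    · rw [Set.mem_singleton_iff] at this
      rw [this]
      norm_num
  have hwU : ∀ v, v ∉ U → w v = 0 := by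
    intro v hv
    rw [hK, Set.mem_univ_pi] at hwK
    have := hwK v
    rw [if_neg hv] at this
    exact this
  have hupd : ∀ v ∈ U, ∀ t : ℝ, 0 ≤ w v + t → w v + t ≤ 1 →
      Function.update w v (w v + t) ∈ K := by
    intro v hv t h0 h1
    rw [hK, Set.mem_univ_pi] at hwK ⊢
    intro u
    by_cases huv : u = v
    · subst huv
      rw [Function.update_self, if_pos hv]
      exact ⟨h0, h1⟩
    · rw [Function.update_of_ne huv]
      exact hwK u
  have hkey : ∀ v ∈ U, ∀ t : ℝ, 0 ≤ w v + t → w v + t ≤ 1 →
      0 ≤ t - t * (A * ∑ e ∈ F.filter (fun e => v ∈ e), df w e) +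
        A / 2 * (F.filter (fun e => v ∈ e)).card * t ^ 2 := by
    intro v hv t h0 h1
    have h2 := hmin (hupd v hv t h0 h1)
    have h3 := Ph_update F A hA.le w v t
    simp only [Set.mem_ofPred_eq] at h2
    linarith
  refine ⟨w, hw0, hwU, ?_, ?_⟩
  · intro v hv
    rw [← mul_sum]
    rcases eq_or_lt_of_le (hw0 v).2 with h1 | h1
    · have hz : ∑ e ∈ F.filter (fun e => v ∈ e), df w e = 0 := by
        apply sum_eq_zero
        intro e he
        rw [mem_filter] at he
        unfold df
        apply max_eq_right
        have : w v ≤ ∑ u ∈ e, w u := single_le_sum (f := w) (fun u _ => (hw0 u).1) he.2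
        linarith
      rw [hz, mul_zero]
      exact zero_le_one
    · by_contra hcon
      push Not at hcon
      set Lo : ℝ := A * ∑ e ∈ F.filter (fun e => v ∈ e), df w e with hLo
      set B : ℝ := A / 2 * (F.filter (fun e => v ∈ e)).card with hB
      have hB0 : 0 ≤ B := by positivity
      set t : ℝ := min (1 - w v) ((Lo - 1) / (2 * (B + 1))) with ht
      have hd : 0 < (Lo - 1) / (2 * (B + 1)) := div_pos (by linarith) (by linarith)
      have ht0 : 0 < t := lt_min (by linarith) hd
      have ht1 : t ≤ 1 - w v := min_le_left _ _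
      have ht2 : t ≤ (Lo - 1) / (2 * (B + 1)) := min_le_right _ _
      have h3 := hkey v hv t (by linarith [(hw0 v).1]) (by linarith)
      rw [le_div_iff₀ (by linarith)] at ht2
      have h4 : 0 ≤ t * (1 - Lo + B * t) := by
        have : t - t * Lo + B * t ^ 2 = t * (1 - Lo + B * t) := by ring
        rw [← this]
        exact h3
      have h5 : 0 ≤ 1 - Lo + B * t := nonneg_of_mul_nonneg_right h4 ht0
      nlinarith
  · have hload : ∀ v, w v ≤ w v * ∑ e ∈ F.filter (fun e => v ∈ e), A * df w e := by
      intro v
      by_cases hv : v ∈ U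
      · rcases eq_or_lt_of_le (hw0 v).1 with h0 | h0
        · rw [← h0, zero_mul]
        · rw [← mul_sum]
          apply le_mul_of_one_le_right h0.le
          by_contra hcon
          push Not at hcon
          set Lo : ℝ := A * ∑ e ∈ F.filter (fun e => v ∈ e), df w e with hLo
          set B : ℝ := A / 2 * (F.filter (fun e => v ∈ e)).card with hB
          have hB0 : 0 ≤ B := by positivity
          set t : ℝ := min (w v) ((1 - Lo) / (2 * (B + 1))) with ht
          have hd : 0 < (1 - Lo) / (2 * (B + 1)) := div_pos (by linarith) (by linarith)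
          have ht0 : 0 < t := lt_min h0 hd
          have ht1 : t ≤ w v := min_le_left _ _
          have ht2 : t ≤ (1 - Lo) / (2 * (B + 1)) := min_le_right _ _
          have h3 := hkey v hv (-t) (by linarith) (by linarith [(hw0 v).2])
          rw [le_div_iff₀ (by linarith)] at ht2
          have h4 : 0 ≤ t * (Lo - 1 + B * t) := by
            have : -t - -t * Lo + B * (-t) ^ 2 = t * (Lo - 1 + B * t) := by ring
            rw [← this]
            exact h3
          have h5 : 0 ≤ Lo - 1 + B * t := nonneg_of_mul_nonneg_right h4 ht0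
          nlinarith
      · rw [hwU v hv, zero_mul]
    calc ∑ v, w v ≤ ∑ v, w v * ∑ e ∈ F.filter (fun e => v ∈ e), A * df w e :=
          sum_le_sum fun v _ => hload v
      _ = ∑ e ∈ F, (A * df w e) * ∑ v ∈ e, w v := sum_load F w _
      _ ≤ ∑ e ∈ F, A * df w e := by
          refine sum_le_sum fun e _ => ?_
          rcases eq_or_lt_of_le (df_nonneg w e) with h | h
          · rw [← h]
            simp
          · have h6 : ∑ v ∈ e, w v ≤ 1 := by
              by_contra hcon
              push Not at hcon
              unfold df at h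
              rw [max_eq_right (by linarith)] at h
              exact lt_irrefl _ h
            have h7 : 0 ≤ A * df w e := by positivity
            calc A * df w e * ∑ v ∈ e, w v ≤ A * df w e * 1 := mul_le_mul_of_nonneg_left h6 h7
              _ = A * df w e := mul_one _

end

end Pool.Agent.H67.RS
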