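import Pool.Agent.H67.RS.Nib3
import Pool.Agent.H67.RS.Opt

/-!
# Weights relative to a maximum matching
-/

set_option autoImplicit false
set_option linter.unusedSectionVars false

namespace Pool.Agent.H67.RS

open Finset Pool.Agent.Q54.TK

/-- `w` is a system of weights for `F` and the matching `M`: it is supported on the vertices covered by
`M`, the total weight is at most `(1 + ε) s`, and all but `ε s^3` edges have weight at least `1 - η` -/
structure Wts {V : Type} [Fintype V] [DecidableEq V] (s : ℕ) (F M : Finset (Finset V)) (ε η : ℝ)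
    (w : V → ℝ) : Prop where
  nn : ∀ v, 0 ≤ w v
  le : ∀ v, w v ≤ 1
  sp : ∀ v, v ∉ M.biUnion id → w v = 0
  tot : ∑ v, w v ≤ (1 + ε) * s
  bad : ((F.filter (fun e => ∑ v ∈ e, w v < 1 - η)).card : ℝ) ≤ ε * (s : ℝ) ^ 3

theorem weights (ε η : ℝ) (hε : 0 < ε) (hε1 : ε ≤ 1) (hη : 0 < η) (hη1 : η ≤ 1) :
    ∃ s0 : ℕ, ∀ s : ℕ, s0 ≤ s → ∀ (V : Type) [Fintype V] [DecidableEq V]
      (F M : Finset (Finset V)), Hyp 3 s F → M ⊆ F → PD M → M.card = s →
      ∃ w : V → ℝ, Wts s F M ε η w := by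
  classical
  set Λ : ℝ := 2 / (η * ε) with hΛ
  have hΛ1 : 1 ≤ Λ := by
    rw [hΛ, le_div_iff₀ (by positivity)]
    nlinarith
  have hΛ0 : 0 < Λ := by linarith
  obtain ⟨s1, H⟩ := nib3 Λ ε hΛ1 hε hε1
  refine ⟨s1, fun s hs V _ _ F M hF hMF hMPD hMs => ?_⟩
  have hspos : (0 : ℝ) < s := by exact_mod_cast hF.s1
  have hA : 0 < Λ / (s : ℝ) ^ 2 := by positivity
  obtain ⟨w, hw0, hwU, hload, hsum⟩ := opt F (M.biUnion id) (Λ / (s : ℝ) ^ 2) hA
  have hdf1 : ∀ e, df w e ≤ 1 := by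
    intro e
    unfold df
    apply max_le _ zero_le_one
    have : 0 ≤ ∑ v ∈ e, w v := sum_nonneg fun v _ => (hw0 v).1
    linarith
  have hY := H s hs V F M (fun e => Λ / (s : ℝ) ^ 2 * df w e) hF hMF hMPD hMs
    (fun e => mul_nonneg hA.le (df_nonneg w e))
    (fun e => by
      have : Λ / (s : ℝ) ^ 2 * df w e * (s : ℝ) ^ 2 = Λ * df w e := by field_simp
      rw [this]
      calc Λ * df w e ≤ Λ * 1 := mul_le_mul_of_nonneg_left (hdf1 e) hΛ0.le
        _ = Λ := mul_one _) hload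
  refine ⟨w, fun v => (hw0 v).1, fun v => (hw0 v).2, hwU, hsum.trans hY, ?_⟩
  set Bd := F.filter (fun e => ∑ v ∈ e, w v < 1 - η) with hBd
  have h1 : (Bd.card : ℝ) * (Λ / (s : ℝ) ^ 2 * η) ≤ (1 + ε) * s := by
    calc (Bd.card : ℝ) * (Λ / (s : ℝ) ^ 2 * η) = ∑ e ∈ Bd, Λ / (s : ℝ) ^ 2 * η := by
          rw [sum_const, nsmul_eq_mul]
      _ ≤ ∑ e ∈ Bd, Λ / (s : ℝ) ^ 2 * df w e := by
          refine sum_le_sum fun e he => ?_
          rw [hBd, mem_filter] at he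
          apply mul_le_mul_of_nonneg_left _ hA.le
          unfold df
          exact le_trans (by linarith [he.2]) (le_max_left _ _)
      _ ≤ ∑ e ∈ F, Λ / (s : ℝ) ^ 2 * df w e :=
          sum_le_sum_of_subset_of_nonneg (filter_subset _ _)
            (fun e _ _ => mul_nonneg hA.le (df_nonneg w e))
      _ ≤ (1 + ε) * s := hY
  have h2 : (Bd.card : ℝ) * (Λ * η) ≤ (1 + ε) * (s : ℝ) ^ 3 := by
    have : (Bd.card : ℝ) * (Λ / (s : ℝ) ^ 2 * η) = (Bd.card : ℝ) * (Λ * η) / (s : ℝ) ^ 2 := by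
      ring
    rw [this, div_le_iff₀ (by positivity)] at h1
    calc (Bd.card : ℝ) * (Λ * η) ≤ (1 + ε) * s * (s : ℝ) ^ 2 := h1
      _ = _ := by ring
  have h3 : Λ * η = 2 / ε := by
    rw [hΛ]
    field_simp
  rw [h3] at h2
  have h4 : (Bd.card : ℝ) * 2 ≤ (1 + ε) * (s : ℝ) ^ 3 * ε := by
    have : (Bd.card : ℝ) * (2 / ε) = (Bd.card : ℝ) * 2 / ε := by ring
    rw [this, div_le_iff₀ hε] at h2
    exact h2
  have h5 : (1 + ε) * (s : ℝ) ^ 3 * ε ≤ 2 * (s : ℝ) ^ 3 * ε := by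
    apply mul_le_mul_of_nonneg_right _ hε.le
    apply mul_le_mul_of_nonneg_right _ (by positivity)
    linarith
  linarith

end Pool.Agent.H67.RS
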