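import Pool.Agent.H67.RS.DL
import Pool.Agent.H67.RS.Wt

/-!
# Codegrees and links relative to a set which is almost covered by every maximum matching
-/

set_option autoImplicit false
set_option linter.unusedSectionVars false

namespace Pool.Agent.H67.RS

open Finset Pool.Agent.Q54.TK

section
variable {V : Type} [Fintype V] [DecidableEq V]

/-- the maximum matchings -/
structure MM (s : ℕ) (F M : Finset (Finset V)) : Prop where
  sub : M ⊆ F
  pd : PD M
  card : M.card = s

theorem mm_avoid (s : ℕ) (F : Finset (Finset V)) (hF : Hyp 3 s F) (T : Finset V)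
    (hT : T.card ≤ 2) : ∃ M, MM s F M ∧ ∀ v ∈ T, v ∉ M.biUnion id := by
  obtain ⟨M, h1, h2, h3, h4⟩ := hF.res T (by simpa using hT)
  refine ⟨M, ⟨h1, h2, h4⟩, fun v hv hc => ?_⟩
  obtain ⟨e, he, hve⟩ := mem_biUnion.mp hc
  exact disjoint_left.mp (h3 e he) hve hv

theorem mm_cover (s : ℕ) (F M : Finset (Finset V)) (hF : Hyp 3 s F) (hM : MM s F M)
    (e : Finset V) (he : e ∈ F) : ∃ v ∈ e, v ∈ M.biUnion id := by
  classical
  by_contra hcon
  push Not at hcon
  have hne : e.Nonempty := by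
    rw [← card_pos, hF.uf e he]
    norm_num
  have heM : e ∉ M := by
    intro h
    obtain ⟨v, hv⟩ := hne
    exact hcon v hv (mem_biUnion.mpr ⟨e, h, hv⟩)
  have h1 := hF.nu (insert e M) (insert_subset he hM.sub) ?_
  · rw [card_insert_of_notMem heM, hM.card] at h1
    omega
  · intro a ha b hb hab
    rw [mem_insert] at ha hb
    rcases ha with rfl | ha <;> rcases hb with rfl | hb
    · exact absurd rfl hab
    · rw [disjoint_left]
      intro v hv hvb
      exact hcon v hv (mem_biUnion.mpr ⟨b, hb, hvb⟩)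
    · rw [disjoint_left]
      intro v hva hv
      exact hcon v hv (mem_biUnion.mpr ⟨a, ha, hva⟩)
    · exact hM.pd a ha b hb hab

theorem mm_card (s : ℕ) (F M : Finset (Finset V)) (hF : Hyp 3 s F) (hM : MM s F M) :
    (M.biUnion id).card = 3 * s := by
  rw [card_biUnion]
  · have h : ∀ e ∈ M, (id e : Finset V).card = 3 := fun e he => hF.uf e (hM.sub he)
    rw [sum_congr rfl h, sum_const, hM.card, smul_eq_mul, mul_comm]
  · intro a ha b hb hab
    exact hM.pd a ha b hb hab

/-- edges through `a` and `b` with the third vertex outside `X` -/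
theorem cod (s : ℕ) (F M : Finset (Finset V)) (hF : Hyp 3 s F) (hM : MM s F M) (a b : V)
    (hab : a ≠ b) (ha : a ∉ M.biUnion id) (hb : b ∉ M.biUnion id) (X : Finset V) :
    (F.filter (fun f => a ∈ f ∧ b ∈ f ∧ Disjoint (f \ {a, b}) X)).card ≤
      (M.biUnion id \ X).card := by
  classical
  rw [← Nat.choose_one_right (M.biUnion id \ X).card, ← card_powersetCard]
  apply card_le_card_of_injOn (fun f => f \ {a, b})
  · intro f hf
    have hf' := mem_filter.mp (mem_coe.mp hf)
    obtain ⟨hfF, haf, hbf, hdis⟩ := hf'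
    have hsub : ({a, b} : Finset V) ⊆ f := by
      intro x hx
      rw [mem_insert, mem_singleton] at hx
      rcases hx with rfl | rfl <;> assumption
    have hc : (f \ {a, b}).card = 1 := by
      rw [card_sdiff_of_subset hsub, hF.uf f hfF, card_pair hab]
    rw [mem_coe, mem_powersetCard]
    refine ⟨?_, hc⟩
    obtain ⟨z, hz⟩ := card_eq_one.mp hc
    intro x hx0
    have hx : x ∈ f \ {a, b} := hx0
    have hxz : x = z := by
      rw [hz, mem_singleton] at hx
      exact hx
    subst hxz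
    rw [mem_sdiff]
    refine ⟨?_, disjoint_left.mp hdis hx⟩
    obtain ⟨v, hv, hvM⟩ := mm_cover s F M hF hM f hfF
    have : v ∈ f \ {a, b} := by
      rw [mem_sdiff, mem_insert, mem_singleton]
      refine ⟨hv, ?_⟩
      rintro (rfl | rfl)
      · exact ha hvM
      · exact hb hvM
    rw [hz, mem_singleton] at this
    rw [← this]
    exact hvM
  · intro f hf g hg hfg
    have hf' := mem_filter.mp (mem_coe.mp hf)
    have hg' := mem_filter.mp (mem_coe.mp hg)
    have key : ∀ h : Finset V, a ∈ h → b ∈ h → h = (h \ {a, b}) ∪ {a, b} := by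
      intro h h1 h2
      rw [sdiff_union_of_subset]
      intro x hx
      rw [mem_insert, mem_singleton] at hx
      rcases hx with rfl | rfl <;> assumption
    have hfg' : f \ {a, b} = g \ {a, b} := hfg
    rw [key f hf'.2.1 hf'.2.2.1, key g hg'.2.1 hg'.2.2.1, hfg']

/-- `H` is almost covered by every maximum matching -/
def AC (s : ℕ) (F : Finset (Finset V)) (H : Finset V) (D : ℝ) : Prop :=
  ∀ M, MM s F M → ((M.biUnion id \ H).card : ℝ) ≤ D

theorem cod_H (s : ℕ) (F : Finset (Finset V)) (hF : Hyp 3 s F) (H : Finset V) (D : ℝ)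
    (hD : AC s F H D) (a b : V) (hab : a ≠ b) :
    ((F.filter (fun f => a ∈ f ∧ b ∈ f ∧ Disjoint (f \ {a, b}) H)).card : ℝ) ≤ D := by
  obtain ⟨M, hM, hv⟩ := mm_avoid s F hF {a, b} (by rw [card_pair hab])
  have h1 := cod s F M hF hM a b hab (hv a (by simp)) (hv b (by simp)) H
  refine le_trans ?_ (hD M hM)
  exact_mod_cast h1

/-- the link of `v` outside `H` -/
theorem link_H (s : ℕ) (F : Finset (Finset V)) (hF : Hyp 3 s F) (H : Finset V) (D : ℝ)
    (hD0 : 0 ≤ D) (hD : AC s F H D) (v : V) :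
    ((F.filter (fun f => v ∈ f ∧ Disjoint (f.erase v) H)).card : ℝ) ≤
      1 / 2 * D * (D + min D (s + 1)) := by
  classical
  obtain ⟨M, hM, hv⟩ := mm_avoid s F hF {v} (by simp)
  have hvM : v ∉ M.biUnion id := hv v (by simp)
  set U := M.biUnion id with hU
  set C := U \ H with hC
  set Fv := F.filter (fun f => v ∈ f ∧ Disjoint (f.erase v) H) with hFv
  have hmemFv : ∀ f ∈ Fv, f ∈ F ∧ v ∈ f ∧ Disjoint (f.erase v) H := fun f hf => mem_filter.mp hf
  have hvC : v ∉ C := fun h => hvM (mem_sdiff.mp h).1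
  -- every edge has a vertex in `C`
  have hmeet : ∀ f ∈ Fv, ∃ c ∈ C, c ∈ f := by
    intro f hf
    obtain ⟨hfF, hvf, hd⟩ := hmemFv f hf
    obtain ⟨c, hc, hcM⟩ := mm_cover s F M hF hM f hfF
    have hcv : c ≠ v := by
      rintro rfl
      exact hvM hcM
    exact ⟨c, mem_sdiff.mpr ⟨hcM, disjoint_left.mp hd (mem_erase.mpr ⟨hcv, hc⟩)⟩, hc⟩
  -- double counting
  have hdc : 2 * Fv.card ≤ ∑ c ∈ C, ((Fv.filter (fun f => c ∈ f)).card +
      (Fv.filter (fun f => c ∈ f ∧ Disjoint (f \ {v, c}) U)).card) := by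
    have h1 : ∑ c ∈ C, ((Fv.filter (fun f => c ∈ f)).card +
        (Fv.filter (fun f => c ∈ f ∧ Disjoint (f \ {v, c}) U)).card) =
        ∑ f ∈ Fv, ∑ c ∈ C, ((if c ∈ f then 1 else 0) +
          (if c ∈ f ∧ Disjoint (f \ {v, c}) U then 1 else 0)) := by
      simp only [card_filter]
      rw [sum_comm]
      refine sum_congr rfl fun c _ => ?_
      rw [sum_add_distrib]
    rw [h1, mul_comm, ← smul_eq_mul, ← sum_const]
    refine sum_le_sum fun f hf => ?_
    obtain ⟨c, hcC, hcf⟩ := hmeet f hf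
    obtain ⟨hfF, hvf, hd⟩ := hmemFv f hf
    have hcv : c ≠ v := by
      rintro rfl
      exact hvC hcC
    by_cases h2 : ∃ c' ∈ C, c' ∈ f ∧ c' ≠ c
    · obtain ⟨c', hc'C, hc'f, hne⟩ := h2
      have h3 : ({c', c} : Finset V) ⊆ C := by
        intro x hx
        rw [mem_insert, mem_singleton] at hx
        rcases hx with rfl | rfl <;> assumption
      refine le_trans ?_ (sum_le_sum_of_subset h3)
      rw [sum_pair hne, if_pos hc'f, if_pos hcf]
      omega
    · push Not at h2
      refine le_trans ?_ (single_le_sum (fun _ _ => Nat.zero_le _) hcC)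
      rw [if_pos hcf, if_pos]
      refine ⟨hcf, ?_⟩
      rw [disjoint_left]
      intro x hx hxU
      rw [mem_sdiff, mem_insert, mem_singleton, not_or] at hx
      have hxH : x ∉ H := disjoint_left.mp hd (mem_erase.mpr ⟨hx.2.1, hx.1⟩)
      exact hx.2.2 (h2 x (mem_sdiff.mpr ⟨hxU, hxH⟩) hx.1)
  -- bounds
  have hb1 : ∀ c ∈ C, ((Fv.filter (fun f => c ∈ f)).card : ℝ) ≤ D := by
    intro c hc
    have hcv : v ≠ c := by
      rintro rfl
      exact hvC hc
    refine le_trans ?_ (cod_H s F hF H D hD v c hcv)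
    have : Fv.filter (fun f => c ∈ f) ⊆
        F.filter (fun f => v ∈ f ∧ c ∈ f ∧ Disjoint (f \ {v, c}) H) := by
      intro f hf
      rw [mem_filter] at hf ⊢
      obtain ⟨hfF, hvf, hd⟩ := hmemFv f hf.1
      refine ⟨hfF, hvf, hf.2, ?_⟩
      apply disjoint_of_subset_left _ hd
      intro x hx
      rw [mem_sdiff, mem_insert, mem_singleton, not_or] at hx
      exact mem_erase.mpr ⟨hx.2.1, hx.1⟩
    exact_mod_cast card_le_card this
  have hb2 : ∀ c ∈ C, ((Fv.filter (fun f => c ∈ f ∧ Disjoint (f \ {v, c}) U)).card : ℝ) ≤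
      min D (s + 1) := by
    intro c hc
    have hcv : v ≠ c := by
      rintro rfl
      exact hvC hc
    obtain ⟨M', hM', hv'⟩ := mm_avoid s F hF {v, c} (by rw [card_pair hcv])
    have hcM : c ∈ M.biUnion id := (mem_sdiff.mp hc).1
    obtain ⟨M'', hsub, hPD, hcard, hcM'', hnew⟩ := switch s F M M' hF.uf hF.nu hM.sub hM.pd hM.card
      hM'.sub hM'.pd hM'.card c hcM (hv' c (by simp))
    have hMM : MM s F M'' := ⟨hsub.trans (union_subset hM.sub hM'.sub), hPD, hcard⟩
    have hvM'' : v ∉ M''.biUnion id := by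
      intro h
      obtain ⟨e, he, hve⟩ := mem_biUnion.mp h
      rcases mem_union.mp (hsub he) with h' | h'
      · exact hvM (mem_biUnion.mpr ⟨e, h', hve⟩)
      · exact hv' v (by simp) (mem_biUnion.mpr ⟨e, h', hve⟩)
    have h1 := cod s F M'' hF hMM v c hcv hvM'' hcM'' (H ∪ U)
    have h2 : (Fv.filter (fun f => c ∈ f ∧ Disjoint (f \ {v, c}) U)) ⊆
        F.filter (fun f => v ∈ f ∧ c ∈ f ∧ Disjoint (f \ {v, c}) (H ∪ U)) := by
      intro f hf
      rw [mem_filter] at hf ⊢
      obtain ⟨hfF, hvf, hd⟩ := hmemFv f hf.1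
      refine ⟨hfF, hvf, hf.2.1, ?_⟩
      rw [disjoint_union_right]
      refine ⟨?_, hf.2.2⟩
      apply disjoint_of_subset_left _ hd
      intro x hx
      rw [mem_sdiff, mem_insert, mem_singleton, not_or] at hx
      exact mem_erase.mpr ⟨hx.2.1, hx.1⟩
    have h3 := (card_le_card h2).trans h1
    apply le_min
    · refine le_trans ?_ (hD M'' hMM)
      have h4 : (M''.biUnion id \ (H ∪ U)).card ≤ (M''.biUnion id \ H).card :=
        card_le_card (sdiff_subset_sdiff (Subset.refl _) subset_union_left)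
      exact_mod_cast h3.trans h4
    · have h4 : (M''.biUnion id \ (H ∪ U)).card ≤ (M''.biUnion id \ U).card :=
        card_le_card (sdiff_subset_sdiff (Subset.refl _) subset_union_right)
      have h5 := (h3.trans h4).trans hnew
      exact_mod_cast h5
  have hdc' : (2 : ℝ) * Fv.card ≤ ∑ c ∈ C, (((Fv.filter (fun f => c ∈ f)).card : ℝ) +
      ((Fv.filter (fun f => c ∈ f ∧ Disjoint (f \ {v, c}) U)).card : ℝ)) := by
    exact_mod_cast hdc
  have h6 : ∑ c ∈ C, (((Fv.filter (fun f => c ∈ f)).card : ℝ) +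
      ((Fv.filter (fun f => c ∈ f ∧ Disjoint (f \ {v, c}) U)).card : ℝ)) ≤
      (C.card : ℝ) * (D + min D (s + 1)) := by
    rw [← nsmul_eq_mul, ← sum_const]
    exact sum_le_sum fun c hc => add_le_add (hb1 c hc) (hb2 c hc)
  have h7 : (C.card : ℝ) ≤ D := hD M hM
  have h8 : 0 ≤ D + min D (s + 1) := by
    have : (0 : ℝ) ≤ min D (s + 1) := le_min hD0 (by positivity)
    linarith
  have h9 := mul_le_mul_of_nonneg_right h7 h8
  linarith

end

end Pool.Agent.H67.RS
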