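import Pool.Agent.H67.RS.Heavy

/-!
# Counting the edges by the number of vertices in `H`
-/

set_option autoImplicit false
set_option linter.unusedSectionVars false

namespace Pool.Agent.H67.RS

open Finset Pool.Agent.Q54.TK

section
variable {V : Type} [Fintype V] [DecidableEq V]

/-- the edges with exactly `i` vertices in `H` -/
def Fc (F : Finset (Finset V)) (H : Finset V) (i : ℕ) : Finset (Finset V) :=
  F.filter (fun f => (f ∩ H).card = i)

/-- bound for the number of edges of type `i` through a vertex of `H` -/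
noncomputable def al (h D s : ℝ) : ℕ → ℝ
  | 0 => 0
  | 1 => 1 / 2 * D * (D + min D (s + 1))
  | 2 => h * D
  | 3 => h ^ 2 / 2
  | _ => 0

theorem dgc (s : ℕ) (F : Finset (Finset V)) (hF : Hyp 3 s F) (H : Finset V) (D : ℝ) (hD0 : 0 ≤ D)
    (hD : AC s F H D) (i : ℕ) (hi : i ≤ 3) (v : V) (hv : v ∈ H) :
    (((Fc F H i).filter (fun f => v ∈ f)).card : ℝ) ≤ al H.card D s i := by
  classical
  have hmem : ∀ f ∈ (Fc F H i).filter (fun f => v ∈ f), f ∈ F ∧ (f ∩ H).card = i ∧ v ∈ f := by
    intro f hf
    rw [mem_filter] at hf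
    unfold Fc at hf
    rw [mem_filter] at hf
    exact ⟨hf.1.1, hf.1.2, hf.2⟩
  interval_cases i
  · -- i = 0
    have : (Fc F H 0).filter (fun f => v ∈ f) = ∅ := by
      rw [eq_empty_iff_forall_notMem]
      intro f hf
      obtain ⟨-, h2, h3⟩ := hmem f hf
      rw [card_eq_zero] at h2
      have : v ∈ f ∩ H := mem_inter.mpr ⟨h3, hv⟩
      rw [h2] at this
      simp at this
    rw [this]
    simp [al]
  · -- i = 1
    refine le_trans ?_ (link_H s F hF H D hD0 hD v)
    have : (Fc F H 1).filter (fun f => v ∈ f) ⊆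
        F.filter (fun f => v ∈ f ∧ Disjoint (f.erase v) H) := by
      intro f hf
      obtain ⟨h1, h2, h3⟩ := hmem f hf
      rw [mem_filter]
      refine ⟨h1, h3, ?_⟩
      rw [card_eq_one] at h2
      obtain ⟨z, hz⟩ := h2
      have hvz : v = z := by
        have : v ∈ f ∩ H := mem_inter.mpr ⟨h3, hv⟩
        rw [hz, mem_singleton] at this
        exact this
      rw [disjoint_left]
      intro u hu huH
      rw [mem_erase] at hu
      have : u ∈ f ∩ H := mem_inter.mpr ⟨hu.2, huH⟩
      rw [hz, mem_singleton] at this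
      exact hu.1 (this.trans hvz.symm)
    exact_mod_cast card_le_card this
  · -- i = 2
    have hsub : (Fc F H 2).filter (fun f => v ∈ f) ⊆ (H.erase v).biUnion (fun b =>
        F.filter (fun f => v ∈ f ∧ b ∈ f ∧ Disjoint (f \ {v, b}) H)) := by
      intro f hf
      obtain ⟨h1, h2, h3⟩ := hmem f hf
      have hvf : v ∈ f ∩ H := mem_inter.mpr ⟨h3, hv⟩
      have h4 : ((f ∩ H).erase v).card = 1 := by rw [card_erase_of_mem hvf, h2]
      obtain ⟨b, hb⟩ := card_eq_one.mp h4
      have hbm : b ∈ (f ∩ H).erase v := by rw [hb]; exact mem_singleton_self b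
      rw [mem_erase, mem_inter] at hbm
      rw [mem_biUnion]
      refine ⟨b, mem_erase.mpr ⟨hbm.1, hbm.2.2⟩, ?_⟩
      rw [mem_filter]
      refine ⟨h1, h3, hbm.2.1, ?_⟩
      rw [disjoint_left]
      intro u hu huH
      rw [mem_sdiff, mem_insert, mem_singleton, not_or] at hu
      have : u ∈ (f ∩ H).erase v := mem_erase.mpr ⟨hu.2.1, mem_inter.mpr ⟨hu.1, huH⟩⟩
      rw [hb, mem_singleton] at this
      exact hu.2.2 this
    have h5 : (((Fc F H 2).filter (fun f => v ∈ f)).card : ℝ) ≤ ∑ b ∈ H.erase v,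
        ((F.filter (fun f => v ∈ f ∧ b ∈ f ∧ Disjoint (f \ {v, b}) H)).card : ℝ) := by
      exact_mod_cast (card_le_card hsub).trans card_biUnion_le
    refine h5.trans ?_
    calc ∑ b ∈ H.erase v, ((F.filter (fun f => v ∈ f ∧ b ∈ f ∧ Disjoint (f \ {v, b}) H)).card : ℝ)
        ≤ ∑ b ∈ H.erase v, D := by
          refine sum_le_sum fun b hb => ?_
          exact cod_H s F hF H D hD v b (Ne.symm (mem_erase.mp hb).1)
      _ = ((H.erase v).card : ℝ) * D := by rw [sum_const, nsmul_eq_mul]
      _ ≤ (H.card : ℝ) * D := by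
          apply mul_le_mul_of_nonneg_right _ hD0
          exact_mod_cast card_le_card (erase_subset _ _)
      _ = al H.card D s 2 := rfl
  · -- i = 3
    have hsub : ((Fc F H 3).filter (fun f => v ∈ f)).card ≤ ((H.erase v).powersetCard 2).card := by
      apply card_le_card_of_injOn (fun f => f.erase v)
      · intro f hf
        obtain ⟨h1, h2, h3⟩ := hmem f (mem_coe.mp hf)
        have hfH : f ⊆ H := by
          have h4 : f ∩ H = f := by
            apply eq_of_subset_of_card_le inter_subset_left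
            rw [h2, hF.uf f h1]
          rw [← h4]
          exact inter_subset_right
        rw [mem_coe, mem_powersetCard]
        refine ⟨?_, ?_⟩
        · intro u hu
          have hu' : u ∈ f.erase v := hu
          rw [mem_erase] at hu' ⊢
          exact ⟨hu'.1, hfH hu'.2⟩
        · show (f.erase v).card = 2
          rw [card_erase_of_mem h3, hF.uf f h1]
      · intro f hf g hg hfg
        have hf' := hmem f (mem_coe.mp hf)
        have hg' := hmem g (mem_coe.mp hg)
        have h : f.erase v = g.erase v := hfg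
        rw [← insert_erase hf'.2.2, ← insert_erase hg'.2.2, h]
    rw [card_powersetCard] at hsub
    have h1 : (((H.erase v).card.choose 2 : ℕ) : ℝ) ≤ ((H.erase v).card : ℝ) ^ 2 / (Nat.factorial 2 : ℝ) :=
      Nat.choose_le_pow_div 2 _
    have h2 : (((Fc F H 3).filter (fun f => v ∈ f)).card : ℝ) ≤
        (((H.erase v).card.choose 2 : ℕ) : ℝ) := by exact_mod_cast hsub
    have h3 : ((H.erase v).card : ℝ) ≤ H.card := by exact_mod_cast card_le_card (erase_subset _ _)
    have h4 : ((H.erase v).card : ℝ) ^ 2 ≤ (H.card : ℝ) ^ 2 := pow_le_pow_left₀ (by positivity) h3 2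
    have h5 : (Nat.factorial 2 : ℝ) = 2 := by norm_num [Nat.factorial]
    rw [h5] at h1
    show _ ≤ (H.card : ℝ) ^ 2 / 2
    linarith

/-- the counts -/
structure Cnt (s : ℕ) (F : Finset (Finset V)) (H : Finset V) (D ε η x y P Q : ℝ)
    (n b q : ℕ → ℝ) : Prop where
  tot : (F.card : ℝ) = n 0 + n 1 + n 2 + n 3
  out : ((F.filter (fun f => ¬ f ⊆ H)).card : ℝ) = n 0 + n 1 + n 2
  n0 : ∀ i, 0 ≤ n i
  b0 : ∀ i, 0 ≤ b i
  bs : b 0 + b 1 + b 2 + b 3 ≤ ε * (s : ℝ) ^ 3
  q0 : ∀ i, 0 ≤ q i
  qs : q 0 + q 1 + q 2 + q 3 ≤ (3 + x) * (s : ℝ) ^ 2 * Q + 9 * y * (s : ℝ) ^ 3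
  P0 : 0 ≤ P
  Q0 : 0 ≤ Q
  PQ : P + Q ≤ (1 + ε) * s
  wt : ∀ i : ℕ, i ≤ 3 → (n i - b i) * (1 - η) ≤ al H.card D s i * P + q i
  cap : ∀ i : ℕ, i ≤ 3 → (i : ℝ) * n i ≤ H.card * al H.card D s i

theorem count (s : ℕ) (F M : Finset (Finset V)) (w : V → ℝ) (ε η x y : ℝ) (H : Finset V)
    (hF : Hyp 3 s F) (hw : Wts s F M ε η w) (hH : HSet s F x y H) (hy : 0 ≤ y) (hη : η ≤ 1) :
    ∃ P Q : ℝ, ∃ n b q : ℕ → ℝ, Cnt s F H (3 * s - H.card + y * s) ε η x y P Q n b q := by
  classical
  set D : ℝ := 3 * s - H.card + y * s with hDdef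
  have hD0 : 0 ≤ D := by
    have h1 : (H.card : ℝ) ≤ 3 * s := by exact_mod_cast hH.card
    have h2 : 0 ≤ y * s := by positivity
    rw [hDdef]
    linarith
  have hsumF : ∀ G : Finset (Finset V), G ⊆ F →
      G.card = ∑ i ∈ range 4, (G.filter (fun f => (f ∩ H).card = i)).card := by
    intro G hG
    apply card_eq_sum_card_fiberwise
    intro f hf
    have : (f ∩ H).card ≤ f.card := card_le_card inter_subset_left
    rw [hF.uf f (hG hf)] at this
    show (f ∩ H).card ∈ ((range 4 : Finset ℕ) : Set ℕ)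
    rw [mem_coe, mem_range]
    omega
  refine ⟨∑ v ∈ H, w v, ∑ v ∈ univ \ H, w v, fun i => ((Fc F H i).card : ℝ),
    fun i => (((Fc F H i).filter (fun e => ∑ v ∈ e, w v < 1 - η)).card : ℝ),
    fun i => ∑ v ∈ univ \ H, w v * (((Fc F H i).filter (fun f => v ∈ f)).card : ℝ), ?_⟩
  refine ⟨?_, ?_, fun i => by positivity, fun i => by positivity, ?_, ?_, ?_, ?_, ?_, ?_, ?_, ?_⟩
  · have := hsumF F (Subset.refl _)
    simp only [sum_range_succ, sum_range_zero, zero_add] at this
    unfold Fc
    exact_mod_cast this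
  · have h1 := hsumF (F.filter (fun f => ¬ f ⊆ H)) (filter_subset _ _)
    simp only [sum_range_succ, sum_range_zero, zero_add] at h1
    have h2 : ∀ i < 3, (F.filter (fun f => ¬ f ⊆ H)).filter (fun f => (f ∩ H).card = i) =
        Fc F H i := by
      intro i hi
      unfold Fc
      rw [filter_filter]
      apply filter_congr
      intro f hf
      constructor
      · exact fun h => h.2
      · intro h
        refine ⟨fun hsub => ?_, h⟩
        rw [inter_eq_left.mpr hsub, hF.uf f hf] at h
        omega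
    have h3 : (F.filter (fun f => ¬ f ⊆ H)).filter (fun f => (f ∩ H).card = 3) = ∅ := by
      rw [eq_empty_iff_forall_notMem]
      intro f hf
      rw [mem_filter, mem_filter] at hf
      apply hf.1.2
      have h4 : f ∩ H = f := by
        apply eq_of_subset_of_card_le inter_subset_left
        rw [hf.2, hF.uf f hf.1.1]
      rw [← h4]
      exact inter_subset_right
    rw [h2 0 (by norm_num), h2 1 (by norm_num), h2 2 (by norm_num), h3, card_empty, add_zero] at h1
    exact_mod_cast h1
  · have h1 : ∀ i, (((Fc F H i).filter (fun e => ∑ v ∈ e, w v < 1 - η))) =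
        ((F.filter (fun e => ∑ v ∈ e, w v < 1 - η)).filter (fun f => (f ∩ H).card = i)) := by
      intro i
      unfold Fc
      rw [filter_filter, filter_filter]
      apply filter_congr
      intro f _
      tauto
    have h2 := hsumF (F.filter (fun e => ∑ v ∈ e, w v < 1 - η)) (filter_subset _ _)
    simp only [sum_range_succ, sum_range_zero, zero_add] at h2
    refine le_trans (le_of_eq ?_) hw.bad
    simp only [h1]
    exact_mod_cast h2.symm
  · intro i
    exact sum_nonneg fun v _ => mul_nonneg (hw.nn v) (by positivity)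
  · refine le_trans (le_of_eq ?_) (hH.out w hw.nn hw.le)
    rw [← sum_add_distrib, ← sum_add_distrib, ← sum_add_distrib]
    refine sum_congr rfl fun v _ => ?_
    have h2 := hsumF (F.filter (fun f => v ∈ f)) (filter_subset _ _)
    simp only [sum_range_succ, sum_range_zero, zero_add] at h2
    have h1 : ∀ i, (Fc F H i).filter (fun f => v ∈ f) =
        (F.filter (fun f => v ∈ f)).filter (fun f => (f ∩ H).card = i) := by
      intro i
      unfold Fc
      rw [filter_filter, filter_filter]
      apply filter_congr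
      intro f _
      tauto
    rw [← mul_add, ← mul_add, ← mul_add, h1 0, h1 1, h1 2, h1 3]
    congr 1
    exact_mod_cast h2.symm
  · exact sum_nonneg fun v _ => hw.nn v
  · exact sum_nonneg fun v _ => hw.nn v
  · refine le_trans (le_of_eq ?_) hw.tot
    rw [← sum_sdiff (subset_univ H), add_comm]
  · intro i hi
    set B := (Fc F H i).filter (fun e => ∑ v ∈ e, w v < 1 - η) with hB
    set G := (Fc F H i).filter (fun e => ¬ ∑ v ∈ e, w v < 1 - η) with hG
    have h1 : ((Fc F H i).card : ℝ) - B.card = G.card := by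
      have : B.card + G.card = (Fc F H i).card := card_filter_add_card_filter_not _
      have h2 : (B.card : ℝ) + G.card = (Fc F H i).card := by exact_mod_cast this
      linarith
    have h2 : (G.card : ℝ) * (1 - η) ≤ ∑ f ∈ Fc F H i, ∑ c ∈ f, w c := by
      calc (G.card : ℝ) * (1 - η) = ∑ f ∈ G, (1 - η) := by rw [sum_const, nsmul_eq_mul]
        _ ≤ ∑ f ∈ G, ∑ c ∈ f, w c := by
            refine sum_le_sum fun f hf => ?_
            have := (mem_filter.mp hf).2
            push Not at this
            exact this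
        _ ≤ ∑ f ∈ Fc F H i, ∑ c ∈ f, w c :=
            sum_le_sum_of_subset_of_nonneg (filter_subset _ _)
              (fun f _ _ => sum_nonneg fun c _ => hw.nn c)
    rw [sum_wt, ← sum_sdiff (subset_univ H)] at h2
    have h3 : ∑ v ∈ H, w v * (((Fc F H i).filter (fun f => v ∈ f)).card : ℝ) ≤
        al H.card D s i * ∑ v ∈ H, w v := by
      rw [mul_sum]
      refine sum_le_sum fun v hv => ?_
      rw [mul_comm]
      exact mul_le_mul_of_nonneg_right (dgc s F hF H D hD0 hH.ac i hi v hv) (hw.nn v)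
    show (((Fc F H i).card : ℝ) - B.card) * (1 - η) ≤ _
    rw [h1]
    linarith
  · intro i hi
    have h1 : (i : ℝ) * (Fc F H i).card = ∑ v ∈ H, (((Fc F H i).filter (fun f => v ∈ f)).card : ℝ) := by
      have h2 : ∑ v ∈ H, ((Fc F H i).filter (fun f => v ∈ f)).card = i * (Fc F H i).card := by
        simp only [card_filter]
        rw [sum_comm]
        have h3 : ∀ f ∈ Fc F H i, ∑ v ∈ H, (if v ∈ f then 1 else 0) = i := by
          intro f hf
          rw [← card_filter, filter_mem_eq_inter, inter_comm]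
          exact (mem_filter.mp hf).2
        rw [sum_congr rfl h3, sum_const, smul_eq_mul, mul_comm]
      exact_mod_cast h2.symm
    rw [h1]
    calc ∑ v ∈ H, (((Fc F H i).filter (fun f => v ∈ f)).card : ℝ) ≤ ∑ v ∈ H, al H.card D s i :=
          sum_le_sum fun v hv => dgc s F hF H D hD0 hH.ac i hi v hv
      _ = H.card * al H.card D s i := by rw [sum_const, nsmul_eq_mul]

end

end Pool.Agent.H67.RS
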