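import Pool.Graph.R_pool_sql_team_seeded_3997aac3.Q54.TK.Def

/-!
# Switching between two maximum matchings

Let `M`, `M'` be matchings with `s = ν(F)` edges in a 3-graph `F`, and let the vertex `c` be covered by
`M` and not by `M'`. Then `M ∪ M'` contains a matching `M''` with `s` edges which does not cover `c` and
covers at most `s + 1` vertices that are not covered by `M`.
-/

set_option autoImplicit false
set_option linter.unusedSectionVars false

namespace Pool.Agent.H67.RS

open Finset Pool.Agent.Q54.TK

section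
variable {V : Type} [DecidableEq V]

/-- Hall's condition holds: there is an injective map `π` from `M'` to `M` with `π f ∩ f ≠ ∅` -/
theorem hall_map (s : ℕ) (F M M' : Finset (Finset V)) (huf : ∀ e ∈ F, e.card = 3) (hnu : NuLe F s)
    (hM : M ⊆ F) (hPD : PD M) (hs : M.card = s) (hM' : M' ⊆ F) (hPD' : PD M') :
    ∃ π : Finset V → Finset V, Set.InjOn π M' ∧ ∀ f ∈ M', π f ∈ M ∧ ¬ Disjoint (π f) f := by
  classical
  set t : {f // f ∈ M'} → Finset (Finset V) := fun f => M.filter (fun e => ¬ Disjoint e f.1) with ht
  have hall : ∀ S : Finset {f // f ∈ M'}, S.card ≤ (S.biUnion t).card := by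
    intro S
    set I : Finset (Finset V) := S.image Subtype.val with hI
    have hIc : I.card = S.card := card_image_of_injective _ Subtype.val_injective
    have hIM : I ⊆ M' := by
      intro f hf
      rw [hI, mem_image] at hf
      obtain ⟨x, -, rfl⟩ := hf
      exact x.2
    have hne : ∀ f ∈ M', f.Nonempty := by
      intro f hf
      rw [← card_pos, huf f (hM' hf)]
      norm_num
    have hmem : ∀ e ∈ M, ∀ f ∈ I, ¬ Disjoint e f → e ∈ S.biUnion t := by
      intro e he f hf hd
      rw [hI, mem_image] at hf
      obtain ⟨x, hx, rfl⟩ := hf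
      rw [mem_biUnion]
      refine ⟨x, hx, ?_⟩
      rw [ht]
      exact mem_filter.mpr ⟨he, hd⟩
    have hsub : S.biUnion t ⊆ M := by
      intro e he
      rw [mem_biUnion] at he
      obtain ⟨x, -, hx⟩ := he
      rw [ht] at hx
      exact (mem_filter.mp hx).1
    have hdis : Disjoint (M \ S.biUnion t) I := by
      rw [disjoint_left]
      intro e he hf
      rw [mem_sdiff] at he
      apply he.2
      apply hmem e he.1 e hf
      intro h
      rw [disjoint_self] at h
      have := hne e (hIM hf)
      rw [h] at this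
      simp at this
    have hcard := hnu ((M \ S.biUnion t) ∪ I) (union_subset (sdiff_subset.trans hM) (hIM.trans hM')) ?_
    · rw [card_union_of_disjoint hdis, card_sdiff_of_subset hsub, hs, hIc] at hcard
      have := card_le_card hsub
      omega
    · intro e he f hf hef
      rw [mem_union] at he hf
      rcases he with he | he <;> rcases hf with hf | hf
      · exact hPD e (mem_sdiff.mp he).1 f (mem_sdiff.mp hf).1 hef
      · by_contra hcon
        exact (mem_sdiff.mp he).2 (hmem e (mem_sdiff.mp he).1 f hf hcon)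
      · by_contra hcon
        rw [disjoint_comm] at hcon
        exact (mem_sdiff.mp hf).2 (hmem f (mem_sdiff.mp hf).1 e he hcon)
      · exact hPD' e (hIM he) f (hIM hf) hef
  obtain ⟨g, hginj, hg⟩ := (Finset.all_card_le_biUnion_card_iff_exists_injective t).mp hall
  refine ⟨fun f => if h : f ∈ M' then g ⟨f, h⟩ else ∅, ?_, ?_⟩
  · intro a ha b hb hab
    have ha' : a ∈ M' := ha
    have hb' : b ∈ M' := hb
    simp only [ha', hb', dite_true] at hab
    have := hginj hab
    exact congrArg Subtype.val this
  · intro f hf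
    simp only [hf, dite_true]
    have := hg ⟨f, hf⟩
    rw [ht] at this
    exact mem_filter.mp this

theorem switch (s : ℕ) (F M M' : Finset (Finset V)) (huf : ∀ e ∈ F, e.card = 3) (hnu : NuLe F s)
    (hM : M ⊆ F) (hPD : PD M) (hs : M.card = s) (hM' : M' ⊆ F) (hPD' : PD M') (hs' : M'.card = s)
    (c : V) (hc : c ∈ M.biUnion id) (hc' : c ∉ M'.biUnion id) :
    ∃ M'' : Finset (Finset V), M'' ⊆ M ∪ M' ∧ PD M'' ∧ M''.card = s ∧ c ∉ M''.biUnion id ∧
      (M''.biUnion id \ M.biUnion id).card ≤ s + 1 := by
  classical
  obtain ⟨π, hinj, hπ⟩ := hall_map s F M M' huf hnu hM hPD hs hM' hPD'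
  have hsurj : M'.image π = M := by
    apply eq_of_subset_of_card_le
    · intro e he
      rw [mem_image] at he
      obtain ⟨f, hf, rfl⟩ := he
      exact (hπ f hf).1
    · rw [card_image_of_injOn hinj, hs, hs']
  have hsurj' : ∀ e ∈ M, ∃ f ∈ M', π f = e := by
    intro e he
    rw [← hsurj, mem_image] at he
    exact he
  obtain ⟨E0, hE0, hcE0⟩ := mem_biUnion.mp hc
  simp only [id] at hcE0
  obtain ⟨f0, hf0, hπf0⟩ := hsurj' E0 hE0
  -- closed sets
  set cl : Finset (Finset V) → Prop := fun I => ∀ f ∈ I, ∀ f' ∈ M', ¬ Disjoint (π f') f → f' ∈ I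
    with hcl
  have hne : ((M'.powerset).filter (fun I => cl I ∧ f0 ∈ I)).Nonempty := by
    refine ⟨M', ?_⟩
    rw [mem_filter, mem_powerset]
    exact ⟨Subset.refl _, fun f _ f' hf' _ => hf', hf0⟩
  obtain ⟨I, hI, hImin⟩ := exists_min_image _ card hne
  rw [mem_filter, mem_powerset] at hI
  obtain ⟨hIM, hIcl, hIf0⟩ := hI
  have hπI : (I.image π).card = I.card := card_image_of_injOn (hinj.mono (by exact_mod_cast hIM))
  have hπIM : I.image π ⊆ M := by
    rw [← hsurj]
    exact image_subset_image hIM
  have hclos : ∀ e ∈ M, ∀ f ∈ I, ¬ Disjoint e f → e ∈ I.image π := by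
    intro e he f hf hd
    obtain ⟨f', hf', rfl⟩ := hsurj' e he
    exact mem_image_of_mem _ (hIcl f hf f' hf' hd)
  have hdis : Disjoint (M \ I.image π) I := by
    rw [disjoint_left]
    intro e he hf
    rw [mem_sdiff] at he
    apply he.2
    apply hclos e he.1 e hf
    intro h
    rw [disjoint_self] at h
    have h3 := huf e (hM he.1)
    rw [h] at h3
    simp at h3
  have hIs : I.card ≤ s := by rw [← hs']; exact card_le_card hIM
  refine ⟨(M \ I.image π) ∪ I, ?_, ?_, ?_, ?_, ?_⟩
  · exact union_subset_union sdiff_subset hIM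
  · intro e he f hf hef
    rw [mem_union] at he hf
    rcases he with he | he <;> rcases hf with hf | hf
    · exact hPD e (mem_sdiff.mp he).1 f (mem_sdiff.mp hf).1 hef
    · by_contra hcon
      exact (mem_sdiff.mp he).2 (hclos e (mem_sdiff.mp he).1 f hf hcon)
    · by_contra hcon
      rw [disjoint_comm] at hcon
      exact (mem_sdiff.mp hf).2 (hclos f (mem_sdiff.mp hf).1 e he hcon)
    · exact hPD' e (hIM he) f (hIM hf) hef
  · rw [card_union_of_disjoint hdis, card_sdiff_of_subset hπIM, hπI, hs]
    omega
  · intro hcm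
    obtain ⟨e, he, hce⟩ := mem_biUnion.mp hcm
    simp only [id] at hce
    rw [mem_union] at he
    rcases he with he | he
    · rw [mem_sdiff] at he
      apply he.2
      have : e = E0 := by
        by_contra hne'
        exact disjoint_left.mp (hPD e he.1 E0 hE0 hne') hce hcE0
      rw [this, ← hπf0]
      exact mem_image_of_mem _ hIf0
    · exact hc' (mem_biUnion.mpr ⟨e, hIM he, hce⟩)
  · -- counting
    set U := M.biUnion id with hU
    have h1 : ((M \ I.image π) ∪ I).biUnion id \ U ⊆ I.biUnion (fun f => f \ U) := by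
      intro v hv
      rw [mem_sdiff, mem_biUnion] at hv
      obtain ⟨⟨e, he, hve⟩, hvU⟩ := hv
      simp only [id] at hve
      rw [mem_union] at he
      rcases he with he | he
      · exact absurd (mem_biUnion.mpr ⟨e, (mem_sdiff.mp he).1, hve⟩) hvU
      · rw [mem_biUnion]
        exact ⟨e, he, mem_sdiff.mpr ⟨hve, hvU⟩⟩
    have h2 : (((M \ I.image π) ∪ I).biUnion id \ U).card ≤ ∑ f ∈ I, (f \ U).card :=
      (card_le_card h1).trans card_biUnion_le
    -- incidences
    have h3 : ∀ f ∈ I, (I.filter (fun f' => ¬ Disjoint (π f') f)).card ≤ (f ∩ U).card := by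
      intro f hf
      have hch : ∀ f' ∈ I.filter (fun f' => ¬ Disjoint (π f') f), ∃ x, x ∈ π f' ∧ x ∈ f := by
        intro f' hf'
        rw [mem_filter] at hf'
        rw [not_disjoint_iff] at hf'
        obtain ⟨-, x, hx1, hx2⟩ := hf'
        exact ⟨x, hx1, hx2⟩
      set ch : Finset V → V := fun f' =>
        if h : ∃ x, x ∈ π f' ∧ x ∈ f then h.choose else c with hchd
      have hch' : ∀ f' ∈ I.filter (fun f' => ¬ Disjoint (π f') f), ch f' ∈ π f' ∧ ch f' ∈ f := by
        intro f' hf'
        have h := hch f' hf'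
        rw [hchd]
        simp only [h, dite_true]
        exact h.choose_spec
      apply card_le_card_of_injOn ch
      · intro f' hf'
        have h4 := hch' f' (by exact_mod_cast hf')
        have hf'I : f' ∈ I := (mem_filter.mp (by exact_mod_cast hf')).1
        rw [mem_coe, mem_inter]
        exact ⟨h4.2, mem_biUnion.mpr ⟨π f', (hπ f' (hIM hf'I)).1, h4.1⟩⟩
      · intro a ha b hb hab
        have ha' := hch' a (by exact_mod_cast ha)
        have hb' := hch' b (by exact_mod_cast hb)
        have haI : a ∈ I := (mem_filter.mp (by exact_mod_cast ha)).1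
        have hbI : b ∈ I := (mem_filter.mp (by exact_mod_cast hb)).1
        apply hinj (hIM haI) (hIM hbI)
        by_contra hne'
        have := hPD _ (hπ a (hIM haI)).1 _ (hπ b (hIM hbI)).1 hne'
        rw [← hab] at hb'
        exact disjoint_left.mp this ha'.1 hb'.1
    have h4 : ∑ f ∈ I, (I.filter (fun f' => ¬ Disjoint (π f') f)).card =
        ∑ f' ∈ I, (I.filter (fun f => ¬ Disjoint (π f') f)).card := by
      simp only [card_filter]
      exact sum_comm
    have h5 : ∀ f' ∈ I, (if f' = f0 then 1 else 2) ≤
        (I.filter (fun f => ¬ Disjoint (π f') f)).card := by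
      intro f' hf'
      have hown : f' ∈ I.filter (fun f => ¬ Disjoint (π f') f) :=
        mem_filter.mpr ⟨hf', (hπ f' (hIM hf')).2⟩
      split_ifs with h0
      · exact card_pos.mpr ⟨f', hown⟩
      · -- by minimality
        have : ∃ f ∈ I, f ≠ f' ∧ ¬ Disjoint (π f') f := by
          by_contra hcon
          push Not at hcon
          have hI' : I.erase f' ∈ (M'.powerset).filter (fun I => cl I ∧ f0 ∈ I) := by
            rw [mem_filter, mem_powerset]
            refine ⟨(erase_subset _ _).trans hIM, ?_, mem_erase.mpr ⟨fun h => h0 h.symm, hIf0⟩⟩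
            intro f hf g hg hd
            rw [mem_erase] at hf ⊢
            refine ⟨?_, hIcl f hf.2 g hg hd⟩
            rintro rfl
            exact hd (hcon f hf.2 hf.1)
          have h6 := hImin _ hI'
          have h7 := card_erase_lt_of_mem hf'
          omega
        obtain ⟨f, hf, hne', hd⟩ := this
        have h8 : ({f', f} : Finset (Finset V)) ⊆ I.filter (fun f => ¬ Disjoint (π f') f) := by
          intro g hg
          rw [mem_insert, mem_singleton] at hg
          rcases hg with rfl | rfl
          · exact hown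
          · exact mem_filter.mpr ⟨hf, hd⟩
        have h9 := card_le_card h8
        rw [card_pair (Ne.symm hne')] at h9
        exact h9
    have h6 : ∑ f' ∈ I, (if f' = f0 then 1 else 2) + 1 = 2 * I.card := by
      rw [← add_sum_erase I _ hIf0, if_pos rfl]
      have : ∑ x ∈ I.erase f0, (if x = f0 then 1 else 2) = ∑ x ∈ I.erase f0, 2 :=
        sum_congr rfl fun x hx => if_neg (ne_of_mem_erase hx)
      rw [this, sum_const, card_erase_of_mem hIf0, smul_eq_mul]
      have : 1 ≤ I.card := card_pos.mpr ⟨f0, hIf0⟩
      omega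
    have h7 : ∑ f ∈ I, (f \ U).card + ∑ f ∈ I, (f ∩ U).card = 3 * I.card := by
      rw [← sum_add_distrib]
      have : ∀ f ∈ I, (f \ U).card + (f ∩ U).card = 3 := by
        intro f hf
        rw [card_sdiff_add_card_inter]
        exact huf f (hM' (hIM hf))
      rw [sum_congr rfl this, sum_const, smul_eq_mul, mul_comm]
    have h8 : ∑ f' ∈ I, (if f' = f0 then 1 else 2) ≤ ∑ f ∈ I, (f ∩ U).card := by
      calc ∑ f' ∈ I, (if f' = f0 then 1 else 2)
          ≤ ∑ f' ∈ I, (I.filter (fun f => ¬ Disjoint (π f') f)).card := sum_le_sum h5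
        _ = ∑ f ∈ I, (I.filter (fun f' => ¬ Disjoint (π f') f)).card := h4.symm
        _ ≤ ∑ f ∈ I, (f ∩ U).card := sum_le_sum h3
    omega

end

end Pool.Agent.H67.RS
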