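import Pool.Agent.H67.RS.Psi

/-!
# The estimate for real numbers with error terms
-/

set_option autoImplicit false

namespace Pool.Agent.H67.RS

theorem step_wt (κ η N B Z : ℝ) (hκ : 0 < κ) (hκ1 : κ ≤ 1 / 100) (hη : η ≤ κ)
    (hZ0 : 0 ≤ Z) (hZ : Z ≤ 44) (h : (N - B) * (1 - η) ≤ Z) : N ≤ B + Z + 88 * κ := by
  by_contra hcon
  push Not at hcon
  have h1 : Z + 88 * κ < N - B := by linarith
  have h2 : (Z + 88 * κ) * (1 - κ) ≤ (N - B) * (1 - η) := by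
    apply mul_le_mul h1.le (by linarith) (by linarith)
    linarith
  nlinarith

theorem min_add (N X Y Z : ℝ) (h1 : N ≤ X) (h2 : N ≤ Y + Z) (hZ : 0 ≤ Z) : N ≤ min X Y + Z := by
  rcases le_total X Y with h | h
  · rw [min_eq_left h]
    linarith
  · rw [min_eq_right h]
    exact h2

theorem min_mul_le (a u v : ℝ) (ha : 0 ≤ a) (X Y : ℝ) (hX : X = a * u) (hY : Y = a * v) :
    min X Y = a * min u v := by
  rw [hX, hY, mul_min_of_nonneg _ _ ha]

theorem mul_add_le (a P p κ : ℝ) (ha : 0 ≤ a) (ha12 : a ≤ 12) (hκ : 0 ≤ κ) (h : P ≤ p + κ) :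
    a * P ≤ a * p + 12 * κ := by
  have e1 : a * P ≤ a * (p + κ) := mul_le_mul_of_nonneg_left h ha
  have e2 : a * κ ≤ 12 * κ := mul_le_mul_of_nonneg_right ha12 hκ
  linarith

theorem a1_aux (d κ m δ μ : ℝ) (hκ : 0 ≤ κ) (hκ1 : κ ≤ 1 / 100) (d0 : 0 ≤ d) (d3 : d ≤ 3)
    (m1 : m ≤ 1) (δ0 : 0 ≤ δ) (δd : δ ≤ d + κ) (μ0 : 0 ≤ μ) (μm : μ ≤ m + κ) :
    1 / 2 * δ * (δ + μ) ≤ 1 / 2 * d * (d + m) + 6 * κ := by
  have e1 : δ * (δ + μ) ≤ (d + κ) * ((d + κ) + (m + κ)) :=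
    mul_le_mul δd (add_le_add δd μm) (by linarith) (by linarith)
  have e2 : d * κ ≤ 3 * κ := mul_le_mul_of_nonneg_right d3 hκ
  have e3 : m * κ ≤ 1 * κ := mul_le_mul_of_nonneg_right m1 hκ
  have e4 : κ * κ ≤ 1 / 100 * κ := mul_le_mul_of_nonneg_right hκ1 hκ
  linarith

theorem real_main (κ h y r ε η x P Q a1 a2 a3 N0 N1 N2 N3 B0 B1 B2 B3 q0 q1 q2 q3 : ℝ)
    (hκ : 0 < κ) (hκ1 : κ ≤ 1 / 100) (h0 : 0 ≤ h) (h3 : h ≤ 3) (y0 : 0 ≤ y) (y1 : y ≤ κ)
    (r0 : 0 ≤ r) (r1 : r ≤ κ) (ε1 : ε ≤ κ) (η1 : η ≤ κ) (x0 : 0 ≤ x) (x1 : x ≤ κ)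
    (ha1 : a1 = 1 / 2 * (3 - h + y) * ((3 - h + y) + min (3 - h + y) (1 + r)))
    (ha2 : a2 = h * (3 - h + y)) (ha3 : a3 = h ^ 2 / 2)
    (B00 : 0 ≤ B0) (B10 : 0 ≤ B1) (B20 : 0 ≤ B2) (B30 : 0 ≤ B3) (Bs : B0 + B1 + B2 + B3 ≤ ε)
    (q00 : 0 ≤ q0) (q10 : 0 ≤ q1) (q20 : 0 ≤ q2) (q30 : 0 ≤ q3)
    (qs : q0 + q1 + q2 + q3 ≤ (3 + x) * Q + 9 * y) (P0 : 0 ≤ P) (Q0 : 0 ≤ Q) (PQ : P + Q ≤ 1 + ε)
    (w0 : (N0 - B0) * (1 - η) ≤ q0) (w1 : (N1 - B1) * (1 - η) ≤ a1 * P + q1)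
    (w2 : (N2 - B2) * (1 - η) ≤ a2 * P + q2) (w3 : (N3 - B3) * (1 - η) ≤ a3 * P + q3)
    (c1 : N1 ≤ h * a1) (c2 : 2 * N2 ≤ h * a2) (c3 : 3 * N3 ≤ h * a3) :
    N0 + N1 + N2 + N3 ≤ 9 / 2 - 1 / 25 * (3 - h) - 1 / 25 * (1 - min P 1) + 450 * κ ∧
      N0 + N1 + N2 ≤ 14 * (3 - h) + 4 * (1 - min P 1) + 150 * κ := by
  set d : ℝ := 3 - h with hd
  have d0 : 0 ≤ d := by linarith
  have d3 : d ≤ 3 := by linarith
  set δ : ℝ := d + y with hδ
  have δ0 : 0 ≤ δ := by linarith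
  have δ4 : δ ≤ 4 := by linarith
  have δd : δ ≤ d + κ := by linarith
  have m0 : 0 ≤ min δ (1 + r) := le_min δ0 (by linarith)
  have m2 : min δ (1 + r) ≤ 2 := (min_le_right _ _).trans (by linarith)
  have mm : min δ (1 + r) ≤ min d 1 + κ := by
    rcases le_total d 1 with h' | h'
    · rw [min_eq_left h']
      exact (min_le_left _ _).trans δd
    · rw [min_eq_right h']
      exact (min_le_right _ _).trans (by linarith)
  have md0 : 0 ≤ min d 1 := le_min d0 zero_le_one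
  have md1 : min d 1 ≤ 1 := min_le_right _ _
  have a10 : 0 ≤ a1 := by rw [ha1]; positivity
  have a20 : 0 ≤ a2 := by rw [ha2]; positivity
  have a30 : 0 ≤ a3 := by rw [ha3]; positivity
  have a1u : a1 ≤ 3 * δ := by
    rw [ha1]
    have : δ * (δ + min δ (1 + r)) ≤ δ * 6 := mul_le_mul_of_nonneg_left (by linarith) δ0
    linarith
  have a1v : a1 ≤ 1 / 2 * d * (d + min d 1) + 6 * κ := by
    rw [ha1]
    exact a1_aux d κ (min d 1) δ _ hκ.le hκ1 d0 d3 md1 δ0 δd m0 mm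
  have a2u : a2 ≤ 3 * δ := by
    rw [ha2]
    exact mul_le_mul_of_nonneg_right h3 δ0
  have a2v : a2 ≤ h * d + 3 * κ := by
    rw [ha2]
    have e1 : h * δ ≤ h * (d + κ) := mul_le_mul_of_nonneg_left δd h0
    have e2 : h * κ ≤ 3 * κ := mul_le_mul_of_nonneg_right h3 hκ.le
    linarith
  have a3u : a3 ≤ 9 / 2 := by
    rw [ha3]
    have e1 : h * h ≤ 3 * 3 := mul_le_mul h3 h3 h0 (by norm_num)
    linarith
  have P2 : P ≤ 1 + κ := by linarith
  have Q2 : Q ≤ 1 + κ := by linarith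
  set p : ℝ := min P 1 with hp
  have p0 : 0 ≤ p := le_min P0 zero_le_one
  have p1 : p ≤ 1 := min_le_right _ _
  have pP : p ≤ P := min_le_left _ _
  have Pp : P ≤ p + κ := by
    rcases le_total P 1 with h' | h'
    · rw [hp, min_eq_left h']
      linarith
    · rw [hp, min_eq_right h']
      linarith
  have qs2 : q0 + q1 + q2 + q3 ≤ 3 * (1 - p) + 15 * κ := by
    have e1 : x * Q ≤ κ * 2 := mul_le_mul x1 (by linarith) Q0 hκ.le
    have e2 : Q ≤ 1 + κ - p := by linarith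
    linarith
  have qs3 : q0 + q1 + q2 + q3 ≤ 4 := by linarith
  have aP1 : a1 * P ≤ 24 := by
    have : a1 * P ≤ 12 * 2 := mul_le_mul (by linarith) (by linarith) P0 (by norm_num)
    linarith
  have aP2 : a2 * P ≤ 24 := by
    have : a2 * P ≤ 12 * 2 := mul_le_mul (by linarith) (by linarith) P0 (by norm_num)
    linarith
  have aP3 : a3 * P ≤ 24 := by
    have : a3 * P ≤ 12 * 2 := mul_le_mul (by linarith) (by linarith) P0 (by norm_num)
    linarith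
  have aP10 : 0 ≤ a1 * P := mul_nonneg a10 P0
  have aP20 : 0 ≤ a2 * P := mul_nonneg a20 P0
  have aP30 : 0 ≤ a3 * P := mul_nonneg a30 P0
  have b0 := step_wt κ η N0 B0 q0 hκ hκ1 η1 q00 (by linarith) w0
  have b1 := step_wt κ η N1 B1 _ hκ hκ1 η1 (by linarith) (by linarith) w1
  have b2 := step_wt κ η N2 B2 _ hκ hκ1 η1 (by linarith) (by linarith) w2
  have b3 := step_wt κ η N3 B3 _ hκ hκ1 η1 (by linarith) (by linarith) w3
  have g1 : a1 * P ≤ a1 * p + 12 * κ := mul_add_le a1 P p κ a10 (by linarith) hκ.le Pp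
  have g2 : a2 * P ≤ a2 * p + 12 * κ := mul_add_le a2 P p κ a20 (by linarith) hκ.le Pp
  have g3 : a3 * P ≤ a3 * p + 12 * κ := mul_add_le a3 P p κ a30 (by linarith) hκ.le Pp
  constructor
  · have k1 := min_add N1 (a1 * h) (a1 * p) (B1 + q1 + 100 * κ) (by linarith) (by linarith)
      (by linarith)
    have k2 := min_add N2 (a2 * (h / 2)) (a2 * p) (B2 + q2 + 100 * κ) (by linarith) (by linarith)
      (by linarith)
    have k3 := min_add N3 (a3 * (h / 3)) (a3 * p) (B3 + q3 + 100 * κ) (by linarith) (by linarith)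
      (by linarith)
    rw [← mul_min_of_nonneg _ _ a10] at k1
    rw [← mul_min_of_nonneg _ _ a20] at k2
    rw [← mul_min_of_nonneg _ _ a30] at k3
    have n1 : 0 ≤ min h p := le_min h0 p0
    have n1' : min h p ≤ 1 := (min_le_right _ _).trans p1
    have n2 : 0 ≤ min (h / 2) p := le_min (by linarith) p0
    have n2' : min (h / 2) p ≤ 1 := (min_le_right _ _).trans p1
    have l1 : a1 * min h p ≤ 1 / 2 * d * (d + min d 1) * min h p + 6 * κ := by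
      have e1 : a1 * min h p ≤ (1 / 2 * d * (d + min d 1) + 6 * κ) * min h p :=
        mul_le_mul_of_nonneg_right a1v n1
      have e2 : 6 * κ * min h p ≤ 6 * κ * 1 := mul_le_mul_of_nonneg_left n1' (by linarith)
      linarith
    have l2 : a2 * min (h / 2) p ≤ h * d * min (h / 2) p + 3 * κ := by
      have e1 : a2 * min (h / 2) p ≤ (h * d + 3 * κ) * min (h / 2) p :=
        mul_le_mul_of_nonneg_right a2v n2
      have e2 : 3 * κ * min (h / 2) p ≤ 3 * κ * 1 := mul_le_mul_of_nonneg_left n2' (by linarith)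
      linarith
    have l3 : a3 * min (h / 3) p = 1 / 2 * h ^ 2 * min (h / 3) p := by rw [ha3]; ring
    have hps := psi_le h p h0 h3 p0 p1
    unfold Ps at hps
    rw [← hd] at hps
    linarith
  · have e2 : N2 ≤ 9 / 2 * δ := by
      have : h * a2 ≤ 3 * (3 * δ) := mul_le_mul h3 a2u a20 (by norm_num)
      linarith
    have e1 : N1 ≤ 9 * δ := by
      have : h * a1 ≤ 3 * (3 * δ) := mul_le_mul h3 a1u a10 (by norm_num)
      linarith
    linarith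

end Pool.Agent.H67.RS
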