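import Pool.Agent.H67.RS.Count
import Pool.Agent.H67.RS.Real

/-!
# The bound for all 2-resilient 3-graphs with large matching number
-/

set_option autoImplicit false
set_option linter.unusedSectionVars false

namespace Pool.Agent.H67.RS

open Finset Pool.Agent.Q54.TK

theorem choose_ge (s : ℕ) : 9 / 2 * (s : ℝ) ^ 3 ≤ (((3 * s + 2).choose 3 : ℕ) : ℝ) := by
  have h := Nat.descFactorial_eq_factorial_mul_choose (3 * s + 2) 3
  have h1 : (3 * s + 2).descFactorial 3 = 3 * s * ((3 * s + 1) * (3 * s + 2)) := by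
    simp [Nat.descFactorial]
  have h2 : Nat.factorial 3 = 6 := rfl
  rw [h1, h2] at h
  have h3 : (3 * (s : ℝ) * ((3 * s + 1) * (3 * s + 2))) = 6 * (((3 * s + 2).choose 3 : ℕ) : ℝ) := by
    exact_mod_cast h
  have h4 : (0 : ℝ) ≤ s := by positivity
  nlinarith [mul_nonneg h4 h4]

theorem al_one (h D s : ℝ) : al h D s 1 = 1 / 2 * D * (D + min D (s + 1)) := rfl

theorem al_two (h D s : ℝ) : al h D s 2 = h * D := rfl

theorem al_three (h D s : ℝ) : al h D s 3 = h ^ 2 / 2 := rfl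

theorem cnt_real (s : ℕ) (hs : 1 ≤ s) (κ ε η : ℝ) (hκ : 0 < κ) (hκ1 : κ ≤ 1 / 100)
    (hε : ε ≤ κ) (hη : η ≤ κ) (hsκ : 1 / (s : ℝ) ≤ κ) (V : Type) [Fintype V] [DecidableEq V]
    (F : Finset (Finset V)) (H : Finset V) (hH : H.card ≤ 3 * s) (P Q : ℝ) (n b q : ℕ → ℝ)
    (hc : Cnt s F H (3 * s - H.card + κ * s) ε η κ κ P Q n b q)
    (hF : 9 / 2 * (s : ℝ) ^ 3 ≤ F.card) :
    ((F.filter (fun f => ¬ f ⊆ H)).card : ℝ) ≤ 200000 * κ * (s : ℝ) ^ 3 := by
  have hS : (0 : ℝ) < s := by exact_mod_cast hs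
  set S : ℝ := (s : ℝ) with hSdef
  have hS2 : 0 < S ^ 2 := by positivity
  have hS3 : 0 < S ^ 3 := by positivity
  obtain ⟨h, hh⟩ : ∃ h : ℝ, (H.card : ℝ) = h * S := ⟨H.card / S, by field_simp⟩
  have hH' : (H.card : ℝ) ≤ 3 * S := by
    rw [hSdef]
    exact_mod_cast hH
  have hHc0 : (0 : ℝ) ≤ H.card := by positivity
  have h0 : 0 ≤ h := by
    by_contra hcon
    push Not at hcon
    nlinarith
  have h3 : h ≤ 3 := by
    rw [hh] at hH'
    exact le_of_mul_le_mul_right hH' hS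
  obtain ⟨P', hP⟩ : ∃ P' : ℝ, P = P' * S := ⟨P / S, by field_simp⟩
  obtain ⟨Q', hQ⟩ : ∃ Q' : ℝ, Q = Q' * S := ⟨Q / S, by field_simp⟩
  obtain ⟨N, hN⟩ : ∃ N : ℕ → ℝ, ∀ i, n i = N i * S ^ 3 :=
    ⟨fun i => n i / S ^ 3, fun i => by field_simp⟩
  obtain ⟨B, hB⟩ : ∃ B : ℕ → ℝ, ∀ i, b i = B i * S ^ 3 :=
    ⟨fun i => b i / S ^ 3, fun i => by field_simp⟩
  obtain ⟨q', hq⟩ : ∃ q' : ℕ → ℝ, ∀ i, q i = q' i * S ^ 3 :=
    ⟨fun i => q i / S ^ 3, fun i => by field_simp⟩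
  have hD : 3 * S - H.card + κ * S = S * (3 - h + κ) := by
    rw [hh]
    ring
  have hmin : min (S * (3 - h + κ)) (S + 1) = S * min (3 - h + κ) (1 + 1 / S) := by
    rw [mul_min_of_nonneg _ _ hS.le]
    congr 1
    field_simp
  set a1 : ℝ := 1 / 2 * (3 - h + κ) * ((3 - h + κ) + min (3 - h + κ) (1 + 1 / S)) with ha1
  set a2 : ℝ := h * (3 - h + κ) with ha2
  set a3 : ℝ := h ^ 2 / 2 with ha3
  have e1 : al H.card (3 * S - H.card + κ * S) S 1 = a1 * S ^ 2 := by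
    rw [al_one, hD, hmin, ha1]
    ring
  have e2 : al H.card (3 * S - H.card + κ * S) S 2 = a2 * S ^ 2 := by
    rw [al_two, hD, hh, ha2]
    ring
  have e3 : al H.card (3 * S - H.card + κ * S) S 3 = a3 * S ^ 2 := by
    rw [al_three, hh, ha3]
    ring
  have e0 : al H.card (3 * S - H.card + κ * S) S 0 = 0 := rfl
  have cB : ∀ i, 0 ≤ B i := by
    intro i
    have := hc.b0 i
    rw [hB] at this
    exact (mul_nonneg_iff_of_pos_right hS3).mp this
  have cq : ∀ i, 0 ≤ q' i := by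
    intro i
    have := hc.q0 i
    rw [hq] at this
    exact (mul_nonneg_iff_of_pos_right hS3).mp this
  have cP : 0 ≤ P' := by
    have := hc.P0
    rw [hP] at this
    exact (mul_nonneg_iff_of_pos_right hS).mp this
  have cQ : 0 ≤ Q' := by
    have := hc.Q0
    rw [hQ] at this
    exact (mul_nonneg_iff_of_pos_right hS).mp this
  have cPQ : P' + Q' ≤ 1 + ε := by
    have := hc.PQ
    rw [hP, hQ] at this
    apply le_of_mul_le_mul_right _ hS
    linarith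
  have cbs : B 0 + B 1 + B 2 + B 3 ≤ ε := by
    have := hc.bs
    rw [hB, hB, hB, hB] at this
    apply le_of_mul_le_mul_right _ hS3
    linarith
  have cqs : q' 0 + q' 1 + q' 2 + q' 3 ≤ (3 + κ) * Q' + 9 * κ := by
    have := hc.qs
    rw [hq, hq, hq, hq, hQ] at this
    apply le_of_mul_le_mul_right _ hS3
    linarith
  have w0 : (N 0 - B 0) * (1 - η) ≤ q' 0 := by
    have := hc.wt 0 (by norm_num)
    rw [e0, hN, hB, hq] at this
    apply le_of_mul_le_mul_right _ hS3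
    linarith
  have w1 : (N 1 - B 1) * (1 - η) ≤ a1 * P' + q' 1 := by
    have := hc.wt 1 (by norm_num)
    rw [e1, hN, hB, hq, hP] at this
    apply le_of_mul_le_mul_right _ hS3
    linarith
  have w2 : (N 2 - B 2) * (1 - η) ≤ a2 * P' + q' 2 := by
    have := hc.wt 2 (by norm_num)
    rw [e2, hN, hB, hq, hP] at this
    apply le_of_mul_le_mul_right _ hS3
    linarith
  have w3 : (N 3 - B 3) * (1 - η) ≤ a3 * P' + q' 3 := by
    have := hc.wt 3 (by norm_num)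
    rw [e3, hN, hB, hq, hP] at this
    apply le_of_mul_le_mul_right _ hS3
    linarith
  have c1 : N 1 ≤ h * a1 := by
    have := hc.cap 1 (by norm_num)
    rw [e1, hN, hh] at this
    push_cast at this
    apply le_of_mul_le_mul_right _ hS3
    linarith
  have c2 : 2 * N 2 ≤ h * a2 := by
    have := hc.cap 2 (by norm_num)
    rw [e2, hN, hh] at this
    push_cast at this
    apply le_of_mul_le_mul_right _ hS3
    linarith
  have c3 : 3 * N 3 ≤ h * a3 := by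
    have := hc.cap 3 (by norm_num)
    rw [e3, hN, hh] at this
    push_cast at this
    apply le_of_mul_le_mul_right _ hS3
    linarith
  obtain ⟨r1, r2⟩ := real_main κ h κ (1 / S) ε η κ P' Q' a1 a2 a3 (N 0) (N 1) (N 2) (N 3)
    (B 0) (B 1) (B 2) (B 3) (q' 0) (q' 1) (q' 2) (q' 3) hκ hκ1 h0 h3 hκ.le le_rfl (by positivity)
    hsκ hε hη hκ.le le_rfl ha1 ha2 ha3 (cB 0) (cB 1) (cB 2) (cB 3) cbs (cq 0) (cq 1) (cq 2) (cq 3)
    cqs cP cQ cPQ w0 w1 w2 w3 c1 c2 c3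
  have t1 : 9 / 2 ≤ N 0 + N 1 + N 2 + N 3 := by
    have := hc.tot
    rw [hN, hN, hN, hN] at this
    apply le_of_mul_le_mul_right _ hS3
    linarith
  have hm : min P' 1 ≤ 1 := min_le_right _ _
  have t2 : N 0 + N 1 + N 2 ≤ 200000 * κ := by linarith
  rw [hc.out, hN, hN, hN]
  have t3 : (N 0 + N 1 + N 2) * S ^ 3 ≤ 200000 * κ * S ^ 3 := mul_le_mul_of_nonneg_right t2 hS3.le
  linarith

theorem cla3 (ε0 : ℝ) (hε0 : 0 < ε0) : ∃ s0 : ℕ, ∀ s : ℕ, s0 ≤ s →
    ∀ (V : Type) [Fintype V] [DecidableEq V] (F : Finset (Finset V)), Hyp 3 s F →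
      (3 * s + 2).choose 3 ≤ F.card →
      ∃ P : Finset V, (P.card : ℝ) ≤ (1 + ε0) * (3 * s) ∧
        ((F.filter (fun e => ¬ e ⊆ P)).card : ℝ) ≤ ε0 * (s : ℝ) ^ 3 := by
  classical
  set κ : ℝ := min (1 / 100) (ε0 / 200000) with hκdef
  have hκ : 0 < κ := lt_min (by norm_num) (by positivity)
  have hκ1 : κ ≤ 1 / 100 := min_le_left _ _
  have hκ2 : 200000 * κ ≤ ε0 := by
    have : κ ≤ ε0 / 200000 := min_le_right _ _
    linarith
  have hκκ : κ ^ 2 ≤ 1 / 100 * κ := by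
    rw [sq]
    exact mul_le_mul_of_nonneg_right hκ1 hκ.le
  obtain ⟨s1, hw⟩ := weights (κ ^ 2 / 10) (κ / 20) (by positivity) (by linarith) (by positivity)
    (by linarith)
  obtain ⟨s2, hs2⟩ := exists_nat_ge (1 / κ)
  refine ⟨max s1 s2, fun s hs V _ _ F hF hcard => ?_⟩
  have hs1 : s1 ≤ s := (le_max_left _ _).trans hs
  have hs2' : s2 ≤ s := (le_max_right _ _).trans hs
  have hspos : (0 : ℝ) < s := by exact_mod_cast hF.s1
  have hsκ : 1 / (s : ℝ) ≤ κ := by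
    have h1 : 1 / κ ≤ (s : ℝ) := hs2.trans (by exact_mod_cast hs2')
    rw [div_le_iff₀ hκ] at h1
    rw [div_le_iff₀ hspos]
    linarith
  have hcov : ∀ M, MM s F M → (((Hv s F κ) \ M.biUnion id).card : ℝ) ≤ κ * s := by
    intro M hM
    obtain ⟨w, hwt⟩ := hw s hs1 V F M hF hM.sub hM.pd hM.card
    have h1 := heavy s F M w (κ ^ 2 / 10) (κ / 20) κ hF hM hwt (by positivity) (by linarith) hκ
      (by nlinarith)
    have h2 : ((((Hv s F κ) \ M.biUnion id).card : ℝ)) * κ ≤ (κ * s) * κ := by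
      have : 6 * (κ ^ 2 / 10) * (s : ℝ) ≤ κ * s * κ := by
        have : 0 ≤ κ ^ 2 * s := by positivity
        nlinarith
      linarith
    exact le_of_mul_le_mul_right h2 hκ
  obtain ⟨H, hH⟩ := exists_H s F κ κ hF hκ hcov
  obtain ⟨M, hM, -⟩ := mm_avoid s F hF ∅ (by simp)
  obtain ⟨w, hwt⟩ := hw s hs1 V F M hF hM.sub hM.pd hM.card
  obtain ⟨P, Q, n, b, q, hc⟩ := count s F M w (κ ^ 2 / 10) (κ / 20) κ κ H hF hwt hH hκ.le
    (by linarith)
  refine ⟨H, ?_, ?_⟩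
  · have h1 : (H.card : ℝ) ≤ 3 * s := by exact_mod_cast hH.card
    have h2 : 0 ≤ ε0 * (3 * (s : ℝ)) := by positivity
    linarith
  · have h1 := cnt_real s hF.s1 κ (κ ^ 2 / 10) (κ / 20) hκ hκ1 (by linarith) (by linarith) hsκ V F H
      hH.card P Q n b q hc ((choose_ge s).trans (by exact_mod_cast hcard))
    refine h1.trans ?_
    exact mul_le_mul_of_nonneg_right hκ2 (by positivity)

/-- the bound for all large `s` -/
theorem fin3 : ∃ s0 : ℕ, ∀ s : ℕ, s0 ≤ s → ∀ (V : Type) [Fintype V] [DecidableEq V]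
    (F : Finset (Finset V)), Hyp 3 s F → F.card ≤ (3 * s + 2).choose 3 := by
  obtain ⟨δ0, ρ, hδ0, hρ, s1, h1⟩ := t_EXT 3 (by norm_num)
  obtain ⟨δ1, hδ1, s2, h2⟩ := t_L4 3 (by norm_num)
  obtain ⟨ε, hε, s3, h3⟩ := t_VST 3 (by norm_num) (min δ0 δ1) ρ (lt_min hδ0 hδ1) hρ
  obtain ⟨s4, h4⟩ := cla3 ε hε
  refine ⟨max (max s1 s2) (max s3 s4), fun s hs V _ _ F hH => ?_⟩
  have hs1 : s1 ≤ s := (le_max_left _ _).trans ((le_max_left _ _).trans hs)
  have hs2 : s2 ≤ s := (le_max_right _ _).trans ((le_max_left _ _).trans hs)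
  have hs3 : s3 ≤ s := (le_max_left _ _).trans ((le_max_right _ _).trans hs)
  have hs4 : s4 ≤ s := (le_max_right _ _).trans ((le_max_right _ _).trans hs)
  by_cases hc : F.card ≤ (3 * s + 2).choose 3
  · exact hc
  push Not at hc
  obtain ⟨P, hP1, hP2⟩ := h4 s hs4 V F hH hc.le
  have e : 3 * s + 3 - 1 = 3 * s + 2 := by omega
  obtain ⟨X, hX1, hX2⟩ := h3 s hs3 V F P hH.uf (by rw [e]; exact hc.le)
    (by push_cast; exact hP1) hP2
  have hks : (0 : ℝ) ≤ ((3 : ℕ) : ℝ) * s := by positivity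
  have hX0 : (1 - δ0) * (((3 : ℕ) : ℝ) * s) ≤ (X.card : ℝ) := by
    refine le_trans ?_ hX1
    apply mul_le_mul_of_nonneg_right _ hks
    linarith [min_le_left δ0 δ1]
  have hX3 : (1 - δ1) * (((3 : ℕ) : ℝ) * s) ≤ (X.card : ℝ) := by
    refine le_trans ?_ hX1
    apply mul_le_mul_of_nonneg_right _ hks
    linarith [min_le_right δ0 δ1]
  have := h2 s hs2 V F X (h1 s hs1 V F X hH hX0 hX2) hX3
  rw [e] at this
  exact this

end Pool.Agent.H67.RS
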