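import Pool.Agent.H67.RS.Core

/-!
# The vertices of large degree are almost covered by every maximum matching
-/

set_option autoImplicit false
set_option linter.unusedSectionVars false

namespace Pool.Agent.H67.RS

open Finset Pool.Agent.Q54.TK

section
variable {V : Type} [Fintype V] [DecidableEq V]

theorem sum_wt (G : Finset (Finset V)) (w : V → ℝ) :
    ∑ f ∈ G, ∑ c ∈ f, w c = ∑ c, w c * ((G.filter (fun f => c ∈ f)).card : ℝ) := by
  have h := sum_load G w (fun _ => 1)
  simp only [one_mul, sum_const, nsmul_eq_mul, mul_one] at h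
  rw [← h]

/-- the vertices of degree at least `(3 + x) s^2` -/
noncomputable def Hv (s : ℕ) (F : Finset (Finset V)) (x : ℝ) : Finset V :=
  univ.filter (fun v => (3 + x) * (s : ℝ) ^ 2 ≤ ((F.filter (fun f => v ∈ f)).card : ℝ))

theorem heavy (s : ℕ) (F M : Finset (Finset V)) (w : V → ℝ) (ε η x : ℝ) (hF : Hyp 3 s F)
    (hM : MM s F M) (hw : Wts s F M ε η w) (hε : 0 ≤ ε) (hη1 : η < 1) (hx : 0 < x)
    (hcond : 3 * (1 + ε) ≤ (3 + x / 2) * (1 - η)) :
    (((Hv s F x) \ M.biUnion id).card : ℝ) * x ≤ 6 * ε * s := by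
  classical
  have hspos : (0 : ℝ) < s := by exact_mod_cast hF.s1
  set S := Hv s F x \ M.biUnion id with hS
  set Bd := F.filter (fun e => ∑ v ∈ e, w v < 1 - η) with hBd
  -- bad edges at `v`
  have h1 : ∀ v ∈ S, x / 2 * (s : ℝ) ^ 2 ≤ ((Bd.filter (fun f => v ∈ f)).card : ℝ) := by
    intro v hv
    rw [hS, mem_sdiff] at hv
    obtain ⟨hvH, hvM⟩ := hv
    have hdeg : (3 + x) * (s : ℝ) ^ 2 ≤ ((F.filter (fun f => v ∈ f)).card : ℝ) := by
      unfold Hv at hvH
      exact (mem_filter.mp hvH).2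
    have hwv : w v = 0 := hw.sp v hvM
    set Fv := F.filter (fun f => v ∈ f) with hFv
    set Gd := Fv.filter (fun f => ¬ ∑ u ∈ f, w u < 1 - η) with hGd
    have hsplit : Fv.card = (Bd.filter (fun f => v ∈ f)).card + Gd.card := by
      have h2 : Bd.filter (fun f => v ∈ f) = Fv.filter (fun f => ∑ u ∈ f, w u < 1 - η) := by
        rw [hBd, hFv]
        ext f
        simp only [mem_filter]
        tauto
      rw [h2, hGd]
      exact (card_filter_add_card_filter_not _).symm
    have h3 : (Gd.card : ℝ) * (1 - η) ≤ ∑ f ∈ Fv, ∑ c ∈ f, w c := by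
      calc (Gd.card : ℝ) * (1 - η) = ∑ f ∈ Gd, (1 - η) := by rw [sum_const, nsmul_eq_mul]
        _ ≤ ∑ f ∈ Gd, ∑ c ∈ f, w c := by
            refine sum_le_sum fun f hf => ?_
            have := (mem_filter.mp hf).2
            push Not at this
            exact this
        _ ≤ ∑ f ∈ Fv, ∑ c ∈ f, w c :=
            sum_le_sum_of_subset_of_nonneg (filter_subset _ _)
              (fun f _ _ => sum_nonneg fun c _ => hw.nn c)
    have h4 : ∑ f ∈ Fv, ∑ c ∈ f, w c ≤ 3 * s * ((1 + ε) * s) := by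
      rw [sum_wt]
      calc ∑ c, w c * ((Fv.filter (fun f => c ∈ f)).card : ℝ) ≤ ∑ c, w c * (3 * s) := by
            refine sum_le_sum fun c _ => ?_
            by_cases hcv : c = v
            · rw [hcv, hwv, zero_mul, zero_mul]
            · apply mul_le_mul_of_nonneg_left _ (hw.nn c)
              have h5 := codeg_le F s hF v c (Ne.symm hcv)
              have h6 : Fv.filter (fun f => c ∈ f) = F.filter (fun e => v ∈ e ∧ c ∈ e) := by
                rw [hFv, filter_filter]
              rw [h6]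
              exact h5
        _ = 3 * s * ∑ c, w c := by rw [← sum_mul, mul_comm]
        _ ≤ 3 * s * ((1 + ε) * s) := mul_le_mul_of_nonneg_left hw.tot (by positivity)
    have h5 : (Gd.card : ℝ) ≤ (3 + x / 2) * (s : ℝ) ^ 2 := by
      have h6 : (Gd.card : ℝ) * (1 - η) ≤ ((3 + x / 2) * (s : ℝ) ^ 2) * (1 - η) := by
        calc (Gd.card : ℝ) * (1 - η) ≤ 3 * s * ((1 + ε) * s) := h3.trans h4
          _ = (3 * (1 + ε)) * (s : ℝ) ^ 2 := by ring
          _ ≤ ((3 + x / 2) * (1 - η)) * (s : ℝ) ^ 2 :=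
              mul_le_mul_of_nonneg_right hcond (by positivity)
          _ = _ := by ring
      exact le_of_mul_le_mul_right h6 (by linarith)
    have h7 : (Fv.card : ℝ) = ((Bd.filter (fun f => v ∈ f)).card : ℝ) + (Gd.card : ℝ) := by
      exact_mod_cast hsplit
    nlinarith
  have h2 : (S.card : ℝ) * (x / 2 * (s : ℝ) ^ 2) ≤ 3 * (ε * (s : ℝ) ^ 3) := by
    calc (S.card : ℝ) * (x / 2 * (s : ℝ) ^ 2) = ∑ v ∈ S, x / 2 * (s : ℝ) ^ 2 := by
          rw [sum_const, nsmul_eq_mul]
      _ ≤ ∑ v ∈ S, ((Bd.filter (fun f => v ∈ f)).card : ℝ) := sum_le_sum h1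
      _ ≤ ∑ v, ((Bd.filter (fun f => v ∈ f)).card : ℝ) :=
          sum_le_sum_of_subset_of_nonneg (subset_univ _) (fun _ _ _ => by positivity)
      _ = ∑ v, (fun _ => (1 : ℝ)) v * ((Bd.filter (fun f => v ∈ f)).card : ℝ) := by simp
      _ = ∑ f ∈ Bd, ∑ c ∈ f, (fun _ => (1 : ℝ)) c := (sum_wt Bd (fun _ => 1)).symm
      _ = ∑ f ∈ Bd, (3 : ℝ) := by
          refine sum_congr rfl fun f hf => ?_
          rw [sum_const, hF.uf f (mem_filter.mp hf).1]
          norm_num
      _ = 3 * (Bd.card : ℝ) := by rw [sum_const, nsmul_eq_mul, mul_comm]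
      _ ≤ 3 * (ε * (s : ℝ) ^ 3) := mul_le_mul_of_nonneg_left hw.bad (by norm_num)
  have h3 : ((S.card : ℝ) * x) * (s : ℝ) ^ 2 ≤ (6 * ε * s) * (s : ℝ) ^ 2 := by nlinarith
  exact le_of_mul_le_mul_right h3 (by positivity)

/-- the properties of the set `H` -/
structure HSet (s : ℕ) (F : Finset (Finset V)) (x y : ℝ) (H : Finset V) : Prop where
  card : H.card ≤ 3 * s
  ac : AC s F H (3 * s - H.card + y * s)
  out : ∀ w : V → ℝ, (∀ v, 0 ≤ w v) → (∀ v, w v ≤ 1) →
    ∑ v ∈ univ \ H, w v * ((F.filter (fun f => v ∈ f)).card : ℝ) ≤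
      (3 + x) * (s : ℝ) ^ 2 * ∑ v ∈ univ \ H, w v + 9 * y * (s : ℝ) ^ 3

theorem exists_H (s : ℕ) (F : Finset (Finset V)) (x y : ℝ) (hF : Hyp 3 s F)
    (hx : 0 < x)
    (hcov : ∀ M, MM s F M → (((Hv s F x) \ M.biUnion id).card : ℝ) ≤ y * s) :
    ∃ H, HSet s F x y H := by
  classical
  have hspos : (0 : ℝ) < s := by exact_mod_cast hF.s1
  obtain ⟨M0, hM0, -⟩ := mm_avoid s F hF ∅ (by simp)
  have hbig : ((Hv s F x).card : ℝ) ≤ 3 * s + y * s := by
    have h1 : (Hv s F x).card ≤ (Hv s F x \ M0.biUnion id).card + (M0.biUnion id).card := by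
      have := card_sdiff_add_card (Hv s F x) (M0.biUnion id)
      have h2 : (Hv s F x).card ≤ (Hv s F x ∪ M0.biUnion id).card := card_le_card subset_union_left
      omega
    rw [mm_card s F M0 hF hM0] at h1
    have h2 : ((Hv s F x).card : ℝ) ≤ ((Hv s F x \ M0.biUnion id).card : ℝ) + ((3 * s : ℕ) : ℝ) := by
      exact_mod_cast h1
    push_cast at h2
    linarith [hcov M0 hM0]
  obtain ⟨H, hHsub, hHc⟩ := exists_subset_card_eq (min_le_left (Hv s F x).card (3 * s))
  have hout : ((Hv s F x \ H).card : ℝ) ≤ y * s := by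
    have h1 : (Hv s F x \ H).card = (Hv s F x).card - H.card := card_sdiff_of_subset hHsub
    have hy0 : (0 : ℝ) ≤ y * s := le_trans (by positivity) (hcov M0 hM0)
    rcases le_total (Hv s F x).card (3 * s) with h | h
    · rw [h1, hHc, min_eq_left h]
      simpa using hy0
    · rw [h1, hHc, min_eq_right h, Nat.cast_sub h]
      push_cast
      linarith
  refine ⟨H, ?_, ?_, ?_⟩
  · rw [hHc]
    exact min_le_right _ _
  · intro M hM
    have h1 : ((H \ M.biUnion id).card : ℝ) ≤ y * s := by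
      refine le_trans ?_ (hcov M hM)
      exact_mod_cast card_le_card (sdiff_subset_sdiff hHsub (Subset.refl _))
    have h2 : (M.biUnion id \ H).card + H.card = (H \ M.biUnion id).card + 3 * s := by
      rw [← mm_card s F M hF hM, card_sdiff_add_card, card_sdiff_add_card, union_comm]
    have h3 : ((M.biUnion id \ H).card : ℝ) + H.card = ((H \ M.biUnion id).card : ℝ) + 3 * s := by
      exact_mod_cast h2
    linarith
  · intro w hw0 hw1
    have h1 : ∀ v ∈ univ \ H, w v * ((F.filter (fun f => v ∈ f)).card : ℝ) ≤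
        (3 + x) * (s : ℝ) ^ 2 * w v + if v ∈ Hv s F x \ H then 9 * (s : ℝ) ^ 2 else 0 := by
      intro v hv
      rw [mem_sdiff] at hv
      by_cases hvH : v ∈ Hv s F x
      · rw [if_pos (mem_sdiff.mpr ⟨hvH, hv.2⟩)]
        have h2 := deg_le F s hF v
        have h3 : w v * ((F.filter (fun f => v ∈ f)).card : ℝ) ≤ 1 * (9 * (s : ℝ) ^ 2) :=
          mul_le_mul (hw1 v) h2 (by positivity) zero_le_one
        have h4 : 0 ≤ (3 + x) * (s : ℝ) ^ 2 * w v := by
          have := hw0 v
          positivity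
        linarith
      · rw [if_neg (fun h => hvH (mem_sdiff.mp h).1), add_zero]
        have h2 : ((F.filter (fun f => v ∈ f)).card : ℝ) < (3 + x) * (s : ℝ) ^ 2 := by
          by_contra hcon
          push Not at hcon
          exact hvH (by unfold Hv; exact mem_filter.mpr ⟨mem_univ _, hcon⟩)
        rw [mul_comm]
        exact mul_le_mul_of_nonneg_right h2.le (hw0 v)
    refine (sum_le_sum h1).trans ?_
    rw [sum_add_distrib, ← mul_sum, ← sum_filter, sum_const, nsmul_eq_mul]
    have h2 : (((univ \ H).filter (fun v => v ∈ Hv s F x \ H)).card : ℝ) ≤ y * s := by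
      refine le_trans ?_ hout
      exact_mod_cast card_le_card (fun v hv => (mem_filter.mp hv).2)
    have h3 := mul_le_mul_of_nonneg_right h2 (show (0 : ℝ) ≤ 9 * (s : ℝ) ^ 2 by positivity)
    have h4 : y * s * (9 * (s : ℝ) ^ 2) = 9 * y * (s : ℝ) ^ 3 := by ring
    linarith

end

end Pool.Agent.H67.RS
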