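import Pool.Graph.R_pool_sql_team_seeded_3997aac3.Q54.TK.Gen

/-!
# Fractional matchings relative to a maximum matching

`F` is a 2-resilient 3-graph with matching number `s` and `M` a matching with `s` edges. A fractional
weight `y` on the edges with `y e ≤ Λ / s^2`, with load at most one on the vertices covered by `M` and no
condition on the other vertices, has total weight at most `(1 + ε) s`.
-/

set_option autoImplicit false

namespace Pool.Agent.H67.RS

open Finset Pool.Agent.Q54.TK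

section
variable {V : Type} [Fintype V] [DecidableEq V]

theorem prod_aT (κ : ℝ) (U e : Finset V) :
    ∏ u ∈ e, aT κ (univ \ U) u = κ ^ (e ∩ U).card := by
  classical
  have h : ∀ u ∈ e, aT κ (univ \ U) u = if u ∈ U then κ else 1 := by
    intro u _
    unfold aT
    by_cases hu : u ∈ U
    · simp [hu]
    · simp [hu]
  rw [prod_congr rfl h, prod_ite, prod_const, prod_const_one, mul_one, filter_mem_eq_inter]

/-- the weights for the nibble -/
noncomputable def cw (F : Finset (Finset V)) (U : Finset V) (κ : ℝ) (y : Finset V → ℝ)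
    (e : Finset V) : ℝ :=
  if e ∈ F then κ * y e * (κ⁻¹) ^ (e ∩ U).card else 0

theorem cw_mul (F : Finset (Finset V)) (U : Finset V) (κ : ℝ) (hκ : 0 < κ) (y : Finset V → ℝ)
    (e : Finset V) (he : e ∈ F) : cw F U κ y e * ∏ u ∈ e, aT κ (univ \ U) u = κ * y e := by
  rw [prod_aT, cw, if_pos he, mul_assoc, ← mul_pow, inv_mul_cancel₀ hκ.ne', one_pow, mul_one]

theorem cw_mul_in (F : Finset (Finset V)) (U : Finset V) (κ : ℝ) (hκ : 0 < κ) (y : Finset V → ℝ)
    (e : Finset V) (he : e ∈ F) (v : V) (hv : v ∈ e) (hU : v ∈ U) :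
    cw F U κ y e * ∏ u ∈ e.erase v, aT κ (univ \ U) u = y e := by
  have h1 := cw_mul F U κ hκ y e he
  rw [← mul_prod_erase e _ hv] at h1
  have h2 : aT κ (univ \ U) v = κ := by
    unfold aT
    simp [hU]
  rw [h2] at h1
  have h3 : κ * (cw F U κ y e * ∏ u ∈ e.erase v, aT κ (univ \ U) u) = κ * y e := by
    rw [← h1]; ring
  exact mul_left_cancel₀ hκ.ne' h3

theorem cw_mul_out (F : Finset (Finset V)) (U : Finset V) (κ : ℝ) (hκ : 0 < κ) (y : Finset V → ℝ)
    (e : Finset V) (he : e ∈ F) (v : V) (hv : v ∈ e) (hU : v ∉ U) :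
    cw F U κ y e * ∏ u ∈ e.erase v, aT κ (univ \ U) u = κ * y e := by
  have h1 := cw_mul F U κ hκ y e he
  rw [← mul_prod_erase e _ hv] at h1
  have h2 : aT κ (univ \ U) v = 1 := by
    unfold aT
    simp [hU]
  rw [h2, one_mul] at h1
  exact h1

theorem deg_le (F : Finset (Finset V)) (s : ℕ) (hF : Hyp 3 s F) (v : V) :
    ((F.filter (fun e => v ∈ e)).card : ℝ) ≤ 9 * (s : ℝ) ^ 2 := by
  have h := t_DEG V F 3 s hF {v} (by simp)
  unfold dg at h
  simp only [singleton_subset_iff, card_singleton] at h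
  have h2 : (((F.filter (fun e => v ∈ e)).card : ℕ) : ℝ) ≤ ((3 * s) ^ (3 - 1) : ℕ) := by
    exact_mod_cast h
  refine h2.trans (le_of_eq ?_)
  push_cast
  ring

theorem codeg_le (F : Finset (Finset V)) (s : ℕ) (hF : Hyp 3 s F) (u v : V) (huv : u ≠ v) :
    ((F.filter (fun e => u ∈ e ∧ v ∈ e)).card : ℝ) ≤ 3 * (s : ℝ) := by
  have h := t_DEG V F 3 s hF {u, v} (by rw [card_pair huv]; norm_num)
  unfold dg at h
  rw [card_pair huv] at h
  have h3 : F.filter (fun e => u ∈ e ∧ v ∈ e) = F.filter (fun e => ({u, v} : Finset V) ⊆ e) := by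
    apply filter_congr
    intro e _
    simp [insert_subset_iff]
  rw [h3]
  have h2 : (((F.filter (fun e => ({u, v} : Finset V) ⊆ e)).card : ℕ) : ℝ) ≤
      ((3 * s) ^ (3 - 2) : ℕ) := by
    exact_mod_cast h
  refine h2.trans (le_of_eq ?_)
  push_cast
  ring

end

/-- fractional matchings relative to `M` -/
theorem nib3 (Λ ε : ℝ) (hΛ : 1 ≤ Λ) (hε : 0 < ε) (hε1 : ε ≤ 1) : ∃ s0 : ℕ, ∀ s : ℕ, s0 ≤ s →
    ∀ (V : Type) [Fintype V] [DecidableEq V] (F M : Finset (Finset V)) (y : Finset V → ℝ),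
      Hyp 3 s F → M ⊆ F → PD M → M.card = s → (∀ e, 0 ≤ y e) →
      (∀ e, y e * (s : ℝ) ^ 2 ≤ Λ) →
      (∀ v ∈ M.biUnion id, ∑ e ∈ F.filter (fun e => v ∈ e), y e ≤ 1) →
      ∑ e ∈ F, y e ≤ (1 + ε) * s := by
  classical
  set κ : ℝ := 1 / (9 * Λ) with hκ
  have hκ0 : 0 < κ := by positivity
  have hκ1 : κ ≤ 1 := by
    rw [hκ, div_le_one (by positivity)]
    linarith
  set θ : ℝ := ε / 10 with hθ
  have hθ0 : 0 < θ := by positivity
  set C : ℝ := 9 * Λ * (κ⁻¹) ^ 2 with hC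
  have hki : 1 ≤ κ⁻¹ := (one_le_inv₀ hκ0).mpr hκ1
  have hC1 : 1 ≤ C := by
    have h1 : 1 ≤ (κ⁻¹) ^ 2 := one_le_pow₀ hki
    have : (1 : ℝ) * 1 ≤ (9 * Λ) * (κ⁻¹) ^ 2 := mul_le_mul (by linarith) h1 zero_le_one (by positivity)
    linarith
  obtain ⟨s1, H⟩ := t_NIB 3 θ θ C (by norm_num) hθ0 hθ0 hC1
  set C2 : ℝ := C * 3 + C ^ 3 * 3 ^ 3 / θ ^ 2 with hC2
  have hC20 : 0 ≤ C2 := by positivity
  obtain ⟨s2, hs2⟩ := exists_nat_gt (2 * C2 / (κ * ε))
  refine ⟨max s1 (max s2 1), fun s hs V _ _ F M y hF hMF hMPD hMs hy0 hyΛ hyU => ?_⟩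
  have hs1 : s1 ≤ s := (le_max_left _ _).trans hs
  have hs2' : s2 ≤ s := ((le_max_left _ _).trans (le_max_right _ _)).trans hs
  have hs3 : 1 ≤ s := ((le_max_right _ _).trans (le_max_right _ _)).trans hs
  have hspos : (0 : ℝ) < s := by exact_mod_cast hs3
  set U : Finset V := M.biUnion id with hU
  have hMe : ∀ e ∈ M, e ⊆ U := fun e he v hv => mem_biUnion.mpr ⟨e, he, hv⟩
  have hqq : qq 3 s = 9 * (s : ℝ) ^ 2 := by
    unfold qq
    push_cast
    ring
  have hSel : Sel 3 s F M (univ \ U) C (cw F U κ y) := by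
    refine ⟨hF, hMF, hMPD, ?_, ?_, ?_, hC1⟩
    · intro e he
      rw [disjoint_iff_inter_eq_empty]
      ext v
      simp only [mem_inter, mem_sdiff, mem_univ, true_and, notMem_empty, iff_false, not_and, not_not]
      intro hv
      exact hMe e he hv
    · intro e
      unfold cw
      split_ifs
      · have := hy0 e
        positivity
      · exact le_rfl
    · intro e
      unfold cw
      split_ifs with he
      · have h3 : (e ∩ U).card ≤ 3 := (card_le_card inter_subset_left).trans (le_of_eq (hF.uf e he))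
        have h4 : (κ⁻¹) ^ (e ∩ U).card ≤ (κ⁻¹) ^ 3 := pow_le_pow_right₀ hki h3
        rw [hqq]
        have h5 : κ * (κ⁻¹) ^ 3 = (κ⁻¹) ^ 2 := by
          rw [pow_succ (κ⁻¹) 2, mul_comm, mul_assoc, inv_mul_cancel₀ hκ0.ne', mul_one]
        calc κ * y e * (κ⁻¹) ^ (e ∩ U).card * (9 * (s : ℝ) ^ 2)
            = (y e * (s : ℝ) ^ 2) * (9 * (κ * (κ⁻¹) ^ (e ∩ U).card)) := by ring
          _ ≤ (y e * (s : ℝ) ^ 2) * (9 * (κ * (κ⁻¹) ^ 3)) := by
              apply mul_le_mul_of_nonneg_left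
              · apply mul_le_mul_of_nonneg_left _ (by norm_num)
                exact mul_le_mul_of_nonneg_left h4 hκ0.le
              · have := hy0 e
                positivity
          _ = (y e * (s : ℝ) ^ 2) * (9 * (κ⁻¹) ^ 2) := by rw [h5]
          _ ≤ Λ * (9 * (κ⁻¹) ^ 2) := mul_le_mul_of_nonneg_right (hyΛ e) (by positivity)
          _ = C := by rw [hC]; ring
      · rw [zero_mul]
        linarith
  -- no overloaded vertex
  have hell : ∀ v, ell F (cw F U κ y) κ (univ \ U) v ≤ 1 := by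
    intro v
    unfold ell
    by_cases hv : v ∈ U
    · calc ∑ e ∈ F.filter (fun e => v ∈ e), cw F U κ y e * ∏ u ∈ e.erase v, aT κ (univ \ U) u
          = ∑ e ∈ F.filter (fun e => v ∈ e), y e := by
            refine sum_congr rfl fun e he => ?_
            rw [mem_filter] at he
            exact cw_mul_in F U κ hκ0 y e he.1 v he.2 hv
        _ ≤ 1 := hyU v hv
    · calc ∑ e ∈ F.filter (fun e => v ∈ e), cw F U κ y e * ∏ u ∈ e.erase v, aT κ (univ \ U) u
          = ∑ e ∈ F.filter (fun e => v ∈ e), κ * y e := by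
            refine sum_congr rfl fun e he => ?_
            rw [mem_filter] at he
            exact cw_mul_out F U κ hκ0 y e he.1 v he.2 hv
        _ ≤ ∑ e ∈ F.filter (fun e => v ∈ e), κ * (Λ / (s : ℝ) ^ 2) := by
            refine sum_le_sum fun e _ => ?_
            apply mul_le_mul_of_nonneg_left _ hκ0.le
            rw [le_div_iff₀ (by positivity)]
            exact hyΛ e
        _ = ((F.filter (fun e => v ∈ e)).card : ℝ) * (κ * (Λ / (s : ℝ) ^ 2)) := by
            rw [sum_const, nsmul_eq_mul]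
        _ ≤ (9 * (s : ℝ) ^ 2) * (κ * (Λ / (s : ℝ) ^ 2)) := by
            apply mul_le_mul_of_nonneg_right (deg_le F s hF v)
            positivity
        _ = 1 := by
            rw [hκ]
            field_simp
  have hSTB := t_STB V F M (univ \ U) 3 s C (cw F U κ y) κ θ hSel hκ0.le hκ1 hθ0
  have hz : ∑ v, (if 1 + θ < ell F (cw F U κ y) κ (univ \ U) v then C * ld 3 s F v else 0) = 0 := by
    apply sum_eq_zero
    intro v _
    rw [if_neg]
    have := hell v
    linarith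
  have hsum : ∑ e ∈ F, cw F U κ y e * ∏ u ∈ e, aT κ (univ \ U) u = κ * ∑ e ∈ F, y e := by
    rw [mul_sum]
    exact sum_congr rfl fun e he => cw_mul F U κ hκ0 y e he
  rw [hz, hsum] at hSTB
  set γ : ℝ := (1 - θ) / (1 + 2 * θ) with hγ
  have hθ1 : θ ≤ 1 / 10 := by rw [hθ]; linarith
  have hγ0 : 0 < γ := by
    rw [hγ]
    apply div_pos <;> linarith
  have hpt : ∀ g : Finset (Finset V), γ * WT F M (univ \ U) (cw F U κ y) θ g +
      ((M.filter (fun e => e ∉ g)).card : ℝ) ≤ s := by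
    intro g
    obtain ⟨M', h1, h2, h3, h4⟩ := H s hs1 V F M (univ \ U) (cw F U κ y) g hSel
    have h5 := t_KEEP V F M M' (univ \ U) 3 s C (cw F U κ y) g hSel h1 h2 h3
    have h6 : (M'.card : ℝ) + ((M.filter (fun e => e ∉ g)).card : ℝ) ≤ s := by exact_mod_cast h5
    linarith
  obtain ⟨hadd, -, hsm, hmono, hconst, -⟩ := t_EBL (Finset V) (fun _ => κ) (fun _ => ⟨hκ0.le, hκ1⟩)
  have hEB := hmono _ _ hpt
  rw [hconst, hadd, hsm, t_EKP V M κ hκ0.le hκ1, hMs] at hEB
  have h7 : γ * (κ * ∑ e ∈ F, y e - C2) ≤ γ * EB (fun _ : Finset V => κ)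
      (fun g => WT F M (univ \ U) (cw F U κ y) θ g) := by
    apply mul_le_mul_of_nonneg_left _ hγ0.le
    refine le_trans (le_of_eq ?_) hSTB
    rw [hC2]
    push_cast
    ring
  have h8 : γ * (κ * ∑ e ∈ F, y e - C2) ≤ κ * s := by linarith
  -- conclude
  have h9 : (1 + ε / 2) * γ ≥ 1 := by
    rw [hγ, ge_iff_le, ← mul_div_assoc, le_div_iff₀ (by linarith)]
    rw [hθ]
    nlinarith
  have h10 : κ * ∑ e ∈ F, y e - C2 ≤ (1 + ε / 2) * (κ * s) := by
    by_contra hcon
    push Not at hcon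
    have h11 : 0 < κ * ∑ e ∈ F, y e - C2 := lt_trans (by positivity) hcon
    have h12 : κ * ∑ e ∈ F, y e - C2 ≤ ((1 + ε / 2) * γ) * (κ * ∑ e ∈ F, y e - C2) :=
      le_mul_of_one_le_left h11.le h9
    have h13 : ((1 + ε / 2) * γ) * (κ * ∑ e ∈ F, y e - C2) ≤ (1 + ε / 2) * (κ * s) := by
      rw [mul_assoc]
      exact mul_le_mul_of_nonneg_left h8 (by linarith)
    linarith
  have h14 : C2 ≤ κ * (ε / 2 * s) := by
    have h15 : 2 * C2 / (κ * ε) < s := hs2.trans_le (by exact_mod_cast hs2')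
    rw [div_lt_iff₀ (by positivity)] at h15
    nlinarith
  have h16 : κ * ∑ e ∈ F, y e ≤ κ * ((1 + ε) * s) := by nlinarith
  exact le_of_mul_le_mul_left h16 hκ0

end Pool.Agent.H67.RS
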