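import Mathlib

/-!
# The polynomial inequality
-/

set_option autoImplicit false

namespace Pool.Agent.H67.RS

theorem lin_le (a b p p0 p1 : ℝ) (h0 : p0 ≤ p) (h1 : p ≤ p1) (ha : a + b * p0 ≤ 0)
    (hb : a + b * p1 ≤ 0) : a + b * p ≤ 0 := by
  rcases le_total 0 b with h | h
  · have : b * p ≤ b * p1 := mul_le_mul_of_nonneg_left h1 h
    linarith
  · have : b * p ≤ b * p0 := mul_le_mul_of_nonpos_left h0 h
    linarith

/-- the bound -/
noncomputable def Ps (h p : ℝ) : ℝ :=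
  1 / 2 * h ^ 2 * min (h / 3) p + h * (3 - h) * min (h / 2) p +
    1 / 2 * (3 - h) * ((3 - h) + min (3 - h) 1) * min h p + 3 * (1 - p)

theorem psi_le (h p : ℝ) (h0 : 0 ≤ h) (h3 : h ≤ 3) (p0 : 0 ≤ p) (p1 : p ≤ 1) :
    Ps h p ≤ 9 / 2 - 1 / 25 * (3 - h) - 1 / 25 * (1 - p) := by
  unfold Ps
  have a3 : 0 ≤ 3 - h := by linarith
  rcases le_total 2 h with h2 | h2
  · -- `d ≤ 1`
    have a2 : 0 ≤ h - 2 := by linarith
    have b1 : 0 ≤ (3 - h) * (h - 2) := mul_nonneg a3 a2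
    have b2 : 0 ≤ (3 - h) * (h - 2) * (h - 2) := mul_nonneg b1 a2
    have b3 : 0 ≤ (3 - h) * (h - 2) * (3 - h) := mul_nonneg b1 a3
    have e1 : min (3 - h) 1 = 3 - h := min_eq_left (by linarith)
    have e2 : min (h / 2) p = p := min_eq_right (by linarith)
    have e3 : min h p = p := min_eq_right (by linarith)
    rw [e1, e2, e3]
    -- value at `h / 3`
    have v3 : h ^ 3 / 6 + 3 * (3 - h) * (h / 3) + 3 - 3 * (h / 3) - 9 / 2 + 1 / 25 * (3 - h) +
        1 / 25 * (1 - h / 3) ≤ 0 := by nlinarith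
    rcases le_total p (h / 3) with hp | hp
    · rw [min_eq_right hp]
      have k0 : (3 - 9 / 2 + 1 / 25 * (3 - h) + 1 / 25) +
        (1 / 2 * h ^ 2 + h * (3 - h) + 1 / 2 * (3 - h) * ((3 - h) + (3 - h)) - 3 - 1 / 25) * 0 ≤ 0 := by
        linarith
      have k1 : (3 - 9 / 2 + 1 / 25 * (3 - h) + 1 / 25) +
        (1 / 2 * h ^ 2 + h * (3 - h) + 1 / 2 * (3 - h) * ((3 - h) + (3 - h)) - 3 - 1 / 25) *
          (h / 3) ≤ 0 := by
        nlinarith
      have key := lin_le _ _ p 0 (h / 3) p0 hp k0 k1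
      linarith
    · rw [min_eq_left hp]
      have k0 : (1 / 2 * h ^ 2 * (h / 3) + 3 - 9 / 2 + 1 / 25 * (3 - h) + 1 / 25) +
        (h * (3 - h) + 1 / 2 * (3 - h) * ((3 - h) + (3 - h)) - 3 - 1 / 25) * (h / 3) ≤ 0 := by
        nlinarith
      have k1 : (1 / 2 * h ^ 2 * (h / 3) + 3 - 9 / 2 + 1 / 25 * (3 - h) + 1 / 25) +
        (h * (3 - h) + 1 / 2 * (3 - h) * ((3 - h) + (3 - h)) - 3 - 1 / 25) * 1 ≤ 0 := by
        nlinarith
      have key := lin_le _ _ p (h / 3) 1 hp p1 k0 k1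
      linarith
  · -- `d ≥ 1`
    have a2 : 0 ≤ 2 - h := by linarith
    have b1 : 0 ≤ h * (2 - h) := mul_nonneg h0 a2
    have e1 : min (3 - h) 1 = 1 := min_eq_right (by linarith)
    rw [e1]
    -- value at `h / 2`
    have c1 : 0 ≤ h * (h - 33 / 20) ^ 2 := mul_nonneg h0 (sq_nonneg _)
    have c2 : 0 ≤ (h - 33 / 20) ^ 2 := sq_nonneg _
    have v2 : h ^ 3 / 6 + h / 2 * (h * (3 - h) + 1 / 2 * (3 - h) * ((3 - h) + 1) - 3) + 3 - 9 / 2 +
        1 / 25 * (3 - h) + 1 / 25 * (1 - h / 2) ≤ 0 := by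
      nlinarith
    rcases le_total p (h / 3) with hp | hp
    · rw [min_eq_right hp, min_eq_right (by linarith : p ≤ h / 2), min_eq_right (by linarith : p ≤ h)]
      have k0 : (3 - 9 / 2 + 1 / 25 * (3 - h) + 1 / 25) +
        (1 / 2 * h ^ 2 + h * (3 - h) + 1 / 2 * (3 - h) * ((3 - h) + 1) - 3 - 1 / 25) * 0 ≤ 0 := by
        linarith
      have k1 : (3 - 9 / 2 + 1 / 25 * (3 - h) + 1 / 25) +
        (1 / 2 * h ^ 2 + h * (3 - h) + 1 / 2 * (3 - h) * ((3 - h) + 1) - 3 - 1 / 25) *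
          (h / 3) ≤ 0 := by
        nlinarith
      have key := lin_le _ _ p 0 (h / 3) p0 hp k0 k1
      linarith
    · rw [min_eq_left hp]
      rcases le_total p (h / 2) with hp2 | hp2
      · rw [min_eq_right hp2, min_eq_right (by linarith : p ≤ h)]
        have k0 : (1 / 2 * h ^ 2 * (h / 3) + 3 - 9 / 2 + 1 / 25 * (3 - h) + 1 / 25) +
          (h * (3 - h) + 1 / 2 * (3 - h) * ((3 - h) + 1) - 3 - 1 / 25) * (h / 3) ≤ 0 := by
          nlinarith
        have k1 : (1 / 2 * h ^ 2 * (h / 3) + 3 - 9 / 2 + 1 / 25 * (3 - h) + 1 / 25) +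
          (h * (3 - h) + 1 / 2 * (3 - h) * ((3 - h) + 1) - 3 - 1 / 25) * (h / 2) ≤ 0 := by
          nlinarith
        have key := lin_le _ _ p (h / 3) (h / 2) hp hp2 k0 k1
        linarith
      · rw [min_eq_left hp2]
        have k0 : (1 / 2 * h ^ 2 * (h / 3) + h * (3 - h) * (h / 2) + 3 - 9 / 2 +
            1 / 25 * (3 - h) + 1 / 25) +
          (1 / 2 * (3 - h) * ((3 - h) + 1) - 3 - 1 / 25) * (h / 2) ≤ 0 := by
          nlinarith
        rcases le_total h 1 with h1 | h1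
        · -- value at `h`
          have a1 : 0 ≤ 1 - h := by linarith
          have d1 : 0 ≤ h * (1 - h) := mul_nonneg h0 a1
          have d2 : 0 ≤ h * (h - 4 / 5) ^ 2 := mul_nonneg h0 (sq_nonneg _)
          have d3 : 0 ≤ (h - 4 / 5) ^ 2 := sq_nonneg _
          have v1 : h ^ 3 / 6 + h ^ 2 * (3 - h) / 2 + 1 / 2 * (3 - h) * ((3 - h) + 1) * h + 3 - 3 * h -
              9 / 2 + 1 / 25 * (3 - h) + 1 / 25 * (1 - h) ≤ 0 := by
            nlinarith
          rcases le_total p h with hph | hph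
          · rw [min_eq_right hph]
            have k1 : (1 / 2 * h ^ 2 * (h / 3) + h * (3 - h) * (h / 2) + 3 - 9 / 2 +
                1 / 25 * (3 - h) + 1 / 25) +
              (1 / 2 * (3 - h) * ((3 - h) + 1) - 3 - 1 / 25) * h ≤ 0 := by
              nlinarith
            have key := lin_le _ _ p (h / 2) h hp2 hph k0 k1
            linarith
          · rw [min_eq_left hph]
            nlinarith
        · rw [min_eq_right (by linarith : p ≤ h)]
          have a1 : 0 ≤ h - 1 := by linarith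
          have d1 : 0 ≤ (h - 1) * (2 - h) := mul_nonneg a1 a2
          have d2 : 0 ≤ (h - 1) * (2 - h) * (h - 1) := mul_nonneg d1 a1
          have k1 : (1 / 2 * h ^ 2 * (h / 3) + h * (3 - h) * (h / 2) + 3 - 9 / 2 +
              1 / 25 * (3 - h) + 1 / 25) +
            (1 / 2 * (3 - h) * ((3 - h) + 1) - 3 - 1 / 25) * 1 ≤ 0 := by
            nlinarith
          have key := lin_le _ _ p (h / 2) 1 hp2 p1 k0 k1
          linarith

end Pool.Agent.H67.RS
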